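import Mathlib

set_option linter.all false
set_option autoImplicit false

open Complex MeasureTheory Set

namespace Pool.Agent.Helper342.Imm

/-- holomorphic dependence of an integral on parameters -/
theorem diff_param (M : ℂ × (ℂ × ℂ) → ℂ) (hM : ContDiff ℂ 1 M) :
    Differentiable ℂ (fun e : ℂ × ℂ => ∫ s in (0:ℝ)..1, M ((s : ℂ), e)) := by
  intro e₀
  have hfc : Continuous (fderiv ℂ M) := hM.continuous_fderiv (by norm_num)
  have hK : IsCompact (((fun s : ℝ => (s : ℂ)) '' Icc (0:ℝ) 1) ×ˢ Metric.closedBall e₀ 1) :=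
    (isCompact_Icc.image Complex.continuous_ofReal).prod (isCompact_closedBall e₀ 1)
  obtain ⟨C, hC⟩ := hK.exists_bound_of_continuousOn hfc.continuousOn
  have hcurry : ∀ e : ℂ × ℂ, Continuous (fun s : ℝ => M ((s : ℂ), e)) := by
    intro e
    exact hM.continuous.comp (by fun_prop)
  have key := intervalIntegral.hasFDerivAt_integral_of_dominated_of_fderiv_le (𝕜 := ℂ)
    (μ := volume) (a := (0:ℝ)) (b := 1) (bound := fun _ => C) (s := Metric.ball e₀ 1)
    (F := fun e (s : ℝ) => M ((s : ℂ), e))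
    (F' := fun e (s : ℝ) => (fderiv ℂ M ((s : ℂ), e)).comp (ContinuousLinearMap.inr ℂ ℂ (ℂ × ℂ)))
    (x₀ := e₀) (Metric.ball_mem_nhds e₀ one_pos) ?_ ?_ ?_ ?_ ?_ ?_
  · exact key.differentiableAt
  · exact Filter.Eventually.of_forall fun e => (hcurry e).aestronglyMeasurable
  · exact (hcurry e₀).intervalIntegrable _ _
  · apply Continuous.aestronglyMeasurable
    have h1 : Continuous (fun s : ℝ => fderiv ℂ M ((s : ℂ), e₀)) := hfc.comp (by fun_prop)
    exact h1.clm_comp continuous_const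
  · refine Filter.Eventually.of_forall fun s hs e he => ?_
    rw [uIoc_of_le zero_le_one] at hs
    have h1 : ‖fderiv ℂ M ((s : ℂ), e)‖ ≤ C :=
      hC _ ⟨⟨s, ⟨hs.1.le, hs.2⟩, rfl⟩, Metric.ball_subset_closedBall he⟩
    calc ‖(fderiv ℂ M ((s : ℂ), e)).comp (ContinuousLinearMap.inr ℂ ℂ (ℂ × ℂ))‖
        ≤ ‖fderiv ℂ M ((s : ℂ), e)‖ * ‖ContinuousLinearMap.inr ℂ ℂ (ℂ × ℂ)‖ :=
          ContinuousLinearMap.opNorm_comp_le _ _
      _ ≤ ‖fderiv ℂ M ((s : ℂ), e)‖ * 1 := by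
          gcongr
          exact ContinuousLinearMap.norm_inr_le_one ℂ ℂ (ℂ × ℂ)
      _ ≤ C := by rw [mul_one]; exact h1
  · exact continuous_const.intervalIntegrable _ _
  · refine Filter.Eventually.of_forall fun s hs e he => ?_
    have h1 : HasFDerivAt M (fderiv ℂ M ((s : ℂ), e)) ((s : ℂ), e) :=
      (hM.differentiable (by norm_num) _).hasFDerivAt
    have h2 : HasFDerivAt (fun e : ℂ × ℂ => ((s : ℂ), e)) (ContinuousLinearMap.inr ℂ ℂ (ℂ × ℂ)) e :=
      hasFDerivAt_prodMk_right _ _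
    exact h1.comp e h2

theorem entire_dslope {f : ℂ → ℂ} (hf : Differentiable ℂ f) (a : ℂ) :
    Differentiable ℂ (dslope f a) := by
  rw [← differentiableOn_univ]
  exact (Complex.differentiableOn_dslope Filter.univ_mem).2 hf.differentiableOn

/-- solving `3 P r_P + 2 Q r_Q = G(P) B(Q) - G(0) B(0)` -/
theorem exists_euler (G B : ℂ → ℂ) (hG : Differentiable ℂ G) (hB : Differentiable ℂ B) :
    ∃ r : ℂ × ℂ → ℂ, Differentiable ℂ r ∧
      ∀ P Q : ℂ, fderiv ℂ r (P, Q) (3 * P, 2 * Q) = G P * B Q - G 0 * B 0 := by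
  have hG1 : ContDiff ℂ 1 (dslope G 0) := (entire_dslope hG 0).contDiff
  have hB1 : ContDiff ℂ 1 (dslope B 0) := (entire_dslope hB 0).contDiff
  have hBc : ContDiff ℂ 1 B := hB.contDiff
  have eG : ∀ y, y * dslope G 0 y = G y - G 0 := by
    intro y
    have := sub_smul_dslope G 0 y
    rwa [smul_eq_mul, sub_zero] at this
  have eB : ∀ y, y * dslope B 0 y = B y - B 0 := by
    intro y
    have := sub_smul_dslope B 0 y
    rwa [smul_eq_mul, sub_zero] at this
  set G1 := dslope G 0 with hG1d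
  set B1 := dslope B 0 with hB1d
  set M : ℂ × (ℂ × ℂ) → ℂ := fun x =>
    x.1 ^ 2 * x.2.1 * G1 (x.1 ^ 3 * x.2.1) * B (x.1 ^ 2 * x.2.2)
      + G 0 * (x.1 * x.2.2 * B1 (x.1 ^ 2 * x.2.2)) with hM
  have hMc : ContDiff ℂ 1 M := by
    simp only [hM]
    fun_prop
  set r : ℂ × ℂ → ℂ := fun e => ∫ s in (0:ℝ)..1, M ((s : ℂ), e) with hr
  have hrd : Differentiable ℂ r := diff_param M hMc
  refine ⟨r, hrd, fun P Q => ?_⟩
  have hMs : ∀ (s τ : ℂ), M (s, (τ ^ 3 * P, τ ^ 2 * Q)) = τ * M (s * τ, (P, Q)) := by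
    intro s τ
    simp only [hM]
    have e1 : s ^ 3 * (τ ^ 3 * P) = (s * τ) ^ 3 * P := by ring
    have e2 : s ^ 2 * (τ ^ 2 * Q) = (s * τ) ^ 2 * Q := by ring
    rw [e1, e2]
    ring
  have hM1 : M (1, (P, Q)) = G P * B Q - G 0 * B 0 := by
    simp only [hM]
    have e1 := eG P
    have e2 := eB Q
    simp only [one_pow, one_mul]
    linear_combination (B Q) * e1 + G 0 * e2
  -- the function τ ↦ r (τ³P, τ²Q)
  have h1 : ∀ τ : ℝ, r (((τ : ℂ)) ^ 3 * P, (τ : ℂ) ^ 2 * Q) = ∫ σ in (0:ℝ)..τ, M ((σ : ℂ), (P, Q)) := by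
    intro τ
    simp only [hr]
    have : (fun s : ℝ => M ((s : ℂ), ((τ : ℂ) ^ 3 * P, (τ : ℂ) ^ 2 * Q)))
        = fun s : ℝ => (τ : ℂ) * M (((s * τ : ℝ) : ℂ), (P, Q)) := by
      funext s
      rw [hMs]
      push_cast
      rfl
    rw [this, intervalIntegral.integral_const_mul]
    by_cases hτ : τ = 0
    · subst hτ
      simp
    · rw [intervalIntegral.integral_comp_mul_right (fun s : ℝ => M ((s : ℂ), (P, Q))) hτ]
      simp only [zero_mul, one_mul, Complex.real_smul]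
      rw [← mul_assoc, Complex.ofReal_inv, mul_inv_cancel₀ (by exact_mod_cast hτ), one_mul]
  have hc : Continuous (fun σ : ℝ => M ((σ : ℂ), (P, Q))) := hMc.continuous.comp (by fun_prop)
  have h2 : HasDerivAt (fun τ : ℝ => ∫ σ in (0:ℝ)..τ, M ((σ : ℂ), (P, Q))) (M (((1:ℝ) : ℂ), (P, Q))) 1 :=
    intervalIntegral.integral_hasDerivAt_right (hc.intervalIntegrable _ _)
      (hc.stronglyMeasurableAtFilter _ _) hc.continuousAt
  have h3 : HasDerivAt (fun τ : ℝ => (((τ : ℂ)) ^ 3 * P, (τ : ℂ) ^ 2 * Q)) (3 * P, 2 * Q) 1 := by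
    have a1 : HasDerivAt (fun τ : ℝ => ((τ : ℂ)) ^ 3 * P) (3 * P) 1 := by
      have := ((Complex.ofRealCLM.hasDerivAt (x := (1:ℝ))).pow 3).mul_const P
      simpa using this
    have a2 : HasDerivAt (fun τ : ℝ => ((τ : ℂ)) ^ 2 * Q) (2 * Q) 1 := by
      have := ((Complex.ofRealCLM.hasDerivAt (x := (1:ℝ))).pow 2).mul_const Q
      simpa using this
    exact a1.prodMk a2
  have h4 : HasDerivAt (fun τ : ℝ => r (((τ : ℂ)) ^ 3 * P, (τ : ℂ) ^ 2 * Q))
      (fderiv ℂ r (P, Q) (3 * P, 2 * Q)) 1 := by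
    have hf : HasFDerivAt r ((fderiv ℂ r (P, Q))) ((((1:ℝ) : ℂ)) ^ 3 * P, ((1:ℝ) : ℂ) ^ 2 * Q) := by
      have := (hrd (P, Q)).hasFDerivAt
      simpa using this
    exact (hf.restrictScalars ℝ).comp_hasDerivAt (1:ℝ) h3
  have h5 : (fun τ : ℝ => r (((τ : ℂ)) ^ 3 * P, (τ : ℂ) ^ 2 * Q)) =
      fun τ : ℝ => ∫ σ in (0:ℝ)..τ, M ((σ : ℂ), (P, Q)) := funext h1
  rw [h5] at h4
  have h6 := h4.unique h2
  rw [h6, Complex.ofReal_one, hM1]

/-- the one variable ingredient -/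
theorem exists_A : ∃ A A' G : ℂ → ℂ, (∀ z, HasDerivAt A (A' z) z) ∧ Differentiable ℂ G ∧
    (∀ z, G z ≠ 0) ∧ ∀ z, (2 + z) * A z - 3 * z * (1 - z) * A' z = G z := by
  set c : ℂ := Complex.log (3 / 2) with hc
  have hec : exp c = 3 / 2 := Complex.exp_log (by norm_num)
  set g : ℂ → ℂ := fun z => 2 * exp (c * z) - z - 2 with hg
  have hgd : Differentiable ℂ g := by
    simp only [hg]
    fun_prop
  have g1 : g 0 = 0 := by simp [hg]
  have g2 : g 1 = 0 := by
    simp only [hg, mul_one, hec]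
    norm_num
  have h1d : Differentiable ℂ (dslope g 0) := entire_dslope hgd 0
  have h2d : Differentiable ℂ (dslope (dslope g 0) 1) := entire_dslope h1d 1
  have k1 : ∀ z, z * dslope g 0 z = g z := by
    intro z
    have := sub_smul_dslope g 0 z
    rwa [smul_eq_mul, g1, sub_zero, sub_zero] at this
  have h11 : dslope g 0 1 = 0 := by
    have := k1 1
    rwa [g2, one_mul] at this
  have k2 : ∀ z, (z - 1) * dslope (dslope g 0) 1 z = dslope g 0 z := by
    intro z
    have := sub_smul_dslope (dslope g 0) 1 z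
    rwa [smul_eq_mul, h11, sub_zero] at this
  obtain ⟨l, hl⟩ := (h2d.const_mul (1/3 : ℂ)).isExactOn_univ
  have hl' : ∀ z, HasDerivAt l ((1/3 : ℂ) * dslope (dslope g 0) 1 z) z := fun z => hl z (mem_univ z)
  refine ⟨fun z => exp (l z), fun z => exp (l z) * ((1/3 : ℂ) * dslope (dslope g 0) 1 z),
    fun z => exp (l z) * (2 * exp (c * z)), fun z => (hl' z).cexp, ?_, ?_, ?_⟩
  · have : Differentiable ℂ l := fun z => (hl' z).differentiableAt
    fun_prop
  · intro z
    exact mul_ne_zero (exp_ne_zero _) (mul_ne_zero two_ne_zero (exp_ne_zero _))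
  · intro z
    have e1 := k1 z
    have e2 := k2 z
    have e3 : g z = 2 * exp (c * z) - z - 2 := rfl
    linear_combination (exp (l z)) * (z * e2 + e1 + e3)

/-- The universal function for singular cubic forms. -/
theorem exists_sing : ∃ U : ℂ × ℂ → ℂ, Differentiable ℂ U ∧
    ∀ x b : ℂ, b + fderiv ℂ U (x, b) (b * x - 3, 2 * b ^ 2) ≠ 0 := by
  obtain ⟨A, A', G, hA, hG, hG0, hAG⟩ := exists_A
  set lam : ℂ := (G 0)⁻¹ with hlam
  have hE : Differentiable ℂ (dslope exp 0) := entire_dslope Complex.differentiable_exp 0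
  have kE : ∀ y, y * dslope exp 0 y = exp y - 1 := by
    intro y
    have := sub_smul_dslope exp 0 y
    rwa [smul_eq_mul, sub_zero, exp_zero] at this
  have hB : Differentiable ℂ (fun Q => lam * dslope exp 0 (lam * Q)) := by
    have : Differentiable ℂ (fun Q : ℂ => lam * Q) := by fun_prop
    exact (hE.comp this).const_mul lam
  obtain ⟨r, hr, hre⟩ := exists_euler G (fun Q => lam * dslope exp 0 (lam * Q)) hG hB
  have hAd : Differentiable ℂ A := fun z => (hA z).differentiableAt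
  have hUd : Differentiable ℂ (fun e : ℂ × ℂ => -(e.1 * A (1 - e.1 * e.2)) + r (1 - e.1 * e.2, e.2)) := by
    fun_prop
  refine ⟨fun e => -(e.1 * A (1 - e.1 * e.2)) + r (1 - e.1 * e.2, e.2), hUd, fun x b => ?_⟩
  have hdir : HasDerivAt (fun t : ℂ => (x + t * (b * x - 3), b + t * (2 * b ^ 2)))
      (b * x - 3, 2 * b ^ 2) 0 := by
    have a1 : HasDerivAt (fun t : ℂ => x + t * (b * x - 3)) (b * x - 3) 0 := by
      simpa using ((hasDerivAt_id (0:ℂ)).mul_const (b * x - 3)).const_add x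
    have a2 : HasDerivAt (fun t : ℂ => b + t * (2 * b ^ 2)) (2 * b ^ 2) 0 := by
      simpa using ((hasDerivAt_id (0:ℂ)).mul_const (2 * b ^ 2)).const_add b
    exact a1.prodMk a2
  have hP : HasDerivAt (fun t : ℂ => 1 - (x + t * (b * x - 3)) * (b + t * (2 * b ^ 2)))
      (3 * b * (1 - x * b)) 0 := by
    have a1 : HasDerivAt (fun t : ℂ => x + t * (b * x - 3)) (b * x - 3) 0 := by
      simpa using ((hasDerivAt_id (0:ℂ)).mul_const (b * x - 3)).const_add x
    have a2 : HasDerivAt (fun t : ℂ => b + t * (2 * b ^ 2)) (2 * b ^ 2) 0 := by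
      simpa using ((hasDerivAt_id (0:ℂ)).mul_const (2 * b ^ 2)).const_add b
    have := (a1.mul a2).const_sub 1
    refine this.congr_deriv ?_
    simp
    ring
  have h1 : HasDerivAt (fun t : ℂ => -((x + t * (b * x - 3)) *
      A (1 - (x + t * (b * x - 3)) * (b + t * (2 * b ^ 2)))) +
      r (1 - (x + t * (b * x - 3)) * (b + t * (2 * b ^ 2)), b + t * (2 * b ^ 2)))
      (-((b * x - 3) * A (1 - x * b) + x * (A' (1 - x * b) * (3 * b * (1 - x * b))))
        + fderiv ℂ r (1 - x * b, b) (3 * b * (1 - x * b), 2 * b ^ 2)) 0 := by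
    have a1 : HasDerivAt (fun t : ℂ => x + t * (b * x - 3)) (b * x - 3) 0 := by
      simpa using ((hasDerivAt_id (0:ℂ)).mul_const (b * x - 3)).const_add x
    have a2 : HasDerivAt (fun t : ℂ => b + t * (2 * b ^ 2)) (2 * b ^ 2) 0 := by
      simpa using ((hasDerivAt_id (0:ℂ)).mul_const (2 * b ^ 2)).const_add b
    have a3 : HasDerivAt (fun t : ℂ => A (1 - (x + t * (b * x - 3)) * (b + t * (2 * b ^ 2))))
        (A' (1 - x * b) * (3 * b * (1 - x * b))) 0 := by
      have hh : HasDerivAt A (A' (1 - x * b)) (1 - (x + 0 * (b * x - 3)) * (b + 0 * (2 * b ^ 2))) := by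
        simpa using hA (1 - x * b)
      exact HasDerivAt.comp (0:ℂ) hh hP
    have a4 : HasDerivAt (fun t : ℂ => r (1 - (x + t * (b * x - 3)) * (b + t * (2 * b ^ 2)), b + t * (2 * b ^ 2)))
        (fderiv ℂ r (1 - x * b, b) (3 * b * (1 - x * b), 2 * b ^ 2)) 0 := by
      have hf : HasFDerivAt r (fderiv ℂ r (1 - x * b, b))
          (1 - (x + 0 * (b * x - 3)) * (b + 0 * (2 * b ^ 2)), b + 0 * (2 * b ^ 2)) := by
        have := (hr (1 - x * b, b)).hasFDerivAt
        simpa using this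
      exact hf.comp_hasDerivAt (0:ℂ) (hP.prodMk a2)
    have a5 := (a1.mul a3).neg.add a4
    refine a5.congr_deriv ?_
    simp
  have h2 : HasDerivAt (fun t : ℂ => -((x + t * (b * x - 3)) *
      A (1 - (x + t * (b * x - 3)) * (b + t * (2 * b ^ 2)))) +
      r (1 - (x + t * (b * x - 3)) * (b + t * (2 * b ^ 2)), b + t * (2 * b ^ 2)))
      (fderiv ℂ (fun e : ℂ × ℂ => -(e.1 * A (1 - e.1 * e.2)) + r (1 - e.1 * e.2, e.2)) (x, b)
        (b * x - 3, 2 * b ^ 2)) 0 := by
    have hf : HasFDerivAt (fun e : ℂ × ℂ => -(e.1 * A (1 - e.1 * e.2)) + r (1 - e.1 * e.2, e.2))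
        (fderiv ℂ (fun e : ℂ × ℂ => -(e.1 * A (1 - e.1 * e.2)) + r (1 - e.1 * e.2, e.2)) (x, b))
        (x + 0 * (b * x - 3), b + 0 * (2 * b ^ 2)) := by
      have := (hUd (x, b)).hasFDerivAt
      simpa using this
    exact hf.comp_hasDerivAt (0:ℂ) hdir
  have h3 := h2.unique h1
  rw [h3]
  have h4 : fderiv ℂ r (1 - x * b, b) (3 * b * (1 - x * b), 2 * b ^ 2)
      = b * (G (1 - x * b) * (lam * dslope exp 0 (lam * b)) - G 0 * (lam * dslope exp 0 (lam * 0))) := by
    have e1 : ((3 * b * (1 - x * b), 2 * b ^ 2) : ℂ × ℂ) = b • ((3 * (1 - x * b), 2 * b) : ℂ × ℂ) := by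
      ext
      · simp; ring
      · simp; ring
    rw [e1, map_smul, hre, smul_eq_mul]
  have h5 : G 0 * (lam * dslope exp 0 (lam * 0)) = 1 := by
    have : dslope exp 0 (lam * 0) = 1 := by
      rw [mul_zero, dslope_same]
      simp
    rw [this, mul_one, hlam, mul_inv_cancel₀ (hG0 0)]
  rw [h4, h5]
  have h6 : b + (-((b * x - 3) * A (1 - x * b) + x * (A' (1 - x * b) * (3 * b * (1 - x * b))))
      + b * (G (1 - x * b) * (lam * dslope exp 0 (lam * b)) - 1)) = G (1 - x * b) * exp (lam * b) := by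
    have e1 := hAG (1 - x * b)
    have e2 := kE (lam * b)
    linear_combination e1 + G (1 - x * b) * e2
  rw [h6]
  exact mul_ne_zero (hG0 _) (exp_ne_zero _)

end Pool.Agent.Helper342.Imm
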