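import Mathlib
import Pool.Agent.Helper342.Imm.Universal

set_option linter.all false
set_option autoImplicit false

open Complex Set

namespace Pool.Agent.Helper342.Imm

/-- The universal function for cubic forms `w ^ 3 + f`. -/
theorem exists_cyc : ∃ V : ℂ → ℂ, Differentiable ℂ V ∧
    ∀ z : ℂ, z ^ 2 + (z ^ 3 - 1) * deriv V z ≠ 0 := by
  set ω : ℂ := exp (2 * Real.pi * I / 3) with hω
  have h3 : ω ^ 3 = 1 := by
    rw [hω, ← exp_nat_mul]
    have : ((3 : ℕ) : ℂ) * (2 * Real.pi * I / 3) = 2 * Real.pi * I := by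
      push_cast
      ring
    rw [this, exp_two_pi_mul_I]
  have h1 : ω ≠ 1 := by
    intro h
    rw [hω, Complex.exp_eq_one_iff] at h
    obtain ⟨k, hk⟩ := h
    have hpi : (Real.pi : ℂ) ≠ 0 := by exact_mod_cast Real.pi_ne_zero
    have hk' : (1 : ℂ) = 3 * k := by
      have : (2 * Real.pi * I) * 1 = (2 * Real.pi * I) * (3 * k) := by linear_combination 3 * hk
      exact mul_left_cancel₀ (mul_ne_zero (mul_ne_zero two_ne_zero hpi) I_ne_zero) this
    have : (1 : ℤ) = 3 * k := by exact_mod_cast hk'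
    omega
  have h0 : ω ≠ 0 := exp_ne_zero _
  have hs : 1 + ω + ω ^ 2 = 0 := by
    have : (ω - 1) * (1 + ω + ω ^ 2) = 0 := by linear_combination h3
    exact (mul_eq_zero.1 this).resolve_left (sub_ne_zero.2 h1)
  have hd : ω ^ 2 - ω ≠ 0 := by
    have : ω ^ 2 - ω = ω * (ω - 1) := by ring
    rw [this]
    exact mul_ne_zero h0 (sub_ne_zero.2 h1)
  set κ : ℂ := -(2 * Real.pi * I / 3) / (ω ^ 2 - ω) with hκ
  have hκ' : κ * (ω ^ 2 - ω) = -(2 * Real.pi * I / 3) := by
    rw [hκ]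
    field_simp
  set g : ℂ → ℂ := fun z => exp (κ * (z ^ 2 - z)) - z ^ 2 with hg
  have hgd : Differentiable ℂ g := by
    simp only [hg]
    fun_prop
  have g1 : g 1 = 0 := by simp [hg]
  have g2 : g ω = 0 := by
    simp only [hg]
    rw [hκ', exp_neg, ← hω]
    field_simp
    linear_combination -h3
  have g3 : g (ω ^ 2) = 0 := by
    have e : κ * ((ω ^ 2) ^ 2 - ω ^ 2) = 2 * Real.pi * I / 3 := by
      linear_combination -hκ' + κ * ω * h3
    simp only [hg]
    rw [e, ← hω]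
    linear_combination -ω * h3
  have d1 : Differentiable ℂ (dslope g 1) := entire_dslope hgd 1
  have d2 : Differentiable ℂ (dslope (dslope g 1) ω) := entire_dslope d1 ω
  have d3 : Differentiable ℂ (dslope (dslope (dslope g 1) ω) (ω ^ 2)) := entire_dslope d2 (ω ^ 2)
  have k1 : ∀ z, (z - 1) * dslope g 1 z = g z := by
    intro z
    have := sub_smul_dslope g 1 z
    rwa [smul_eq_mul, g1, sub_zero] at this
  have h11 : dslope g 1 ω = 0 := by
    have := k1 ω
    rw [g2] at this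
    exact (mul_eq_zero.1 this).resolve_left (sub_ne_zero.2 h1)
  have h12 : dslope g 1 (ω ^ 2) = 0 := by
    have := k1 (ω ^ 2)
    rw [g3] at this
    refine (mul_eq_zero.1 this).resolve_left ?_
    intro h
    apply h1
    linear_combination h3 - ω * h
  have k2 : ∀ z, (z - ω) * dslope (dslope g 1) ω z = dslope g 1 z := by
    intro z
    have := sub_smul_dslope (dslope g 1) ω z
    rwa [smul_eq_mul, h11, sub_zero] at this
  have h22 : dslope (dslope g 1) ω (ω ^ 2) = 0 := by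
    have := k2 (ω ^ 2)
    rw [h12] at this
    exact (mul_eq_zero.1 this).resolve_left hd
  have k3 : ∀ z, (z - ω ^ 2) * dslope (dslope (dslope g 1) ω) (ω ^ 2) z
      = dslope (dslope g 1) ω z := by
    intro z
    have := sub_smul_dslope (dslope (dslope g 1) ω) (ω ^ 2) z
    rwa [smul_eq_mul, h22, sub_zero] at this
  obtain ⟨V, hV⟩ := d3.isExactOn_univ
  have hV' : ∀ z, HasDerivAt V (dslope (dslope (dslope g 1) ω) (ω ^ 2) z) z :=
    fun z => hV z (mem_univ z)
  refine ⟨V, fun z => (hV' z).differentiableAt, fun z => ?_⟩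
  rw [(hV' z).deriv]
  have e1 := k1 z
  have e2 := k2 z
  have e3 := k3 z
  have e4 : g z = exp (κ * (z ^ 2 - z)) - z ^ 2 := rfl
  have e5 : (z - 1) * (z - ω) * (z - ω ^ 2) = z ^ 3 - 1 := by
    linear_combination (-z ^ 2 + z * ω) * hs + (z - 1) * h3 - z * h3
  have e6 : z ^ 2 + (z ^ 3 - 1) * dslope (dslope (dslope g 1) ω) (ω ^ 2) z
      = exp (κ * (z ^ 2 - z)) := by
    rw [← e5]
    linear_combination (z - 1) * (z - ω) * e3 + (z - 1) * e2 + e1 + e4
  rw [e6]
  exact exp_ne_zero _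

/-- some entire map into `ℂⁿ` restricts to an immersion of `{g = 1}` -/
def HasImm {E : Type*} [NormedAddCommGroup E] [NormedSpace ℂ E] (n : ℕ) (g : E → ℂ) : Prop :=
  ∃ Φ : E → (Fin n → ℂ), Differentiable ℂ Φ ∧
    ∀ z, g z = 1 → ∀ v, fderiv ℂ g z v = 0 → fderiv ℂ Φ z v = 0 → v = 0

theorem HasImm.of_equiv {E E' : Type*} [NormedAddCommGroup E] [NormedSpace ℂ E]
    [NormedAddCommGroup E'] [NormedSpace ℂ E'] {n : ℕ} {g : E → ℂ} (L : E' ≃L[ℂ] E)
    (h : HasImm n (fun w => g (L w))) : HasImm n g := by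
  obtain ⟨Φ, h1, h2⟩ := h
  refine ⟨fun z => Φ (L.symm z), h1.comp L.symm.differentiable, fun z hz v hgv hΦ => ?_⟩
  have e1 : fderiv ℂ (fun z => Φ (L.symm z)) z =
      (fderiv ℂ Φ (L.symm z)).comp (L.symm : E →L[ℂ] E') :=
    ContinuousLinearEquiv.comp_right_fderiv L.symm
  have e2 : fderiv ℂ (fun w => g (L w)) (L.symm z) =
      (fderiv ℂ g (L (L.symm z))).comp (L : E' →L[ℂ] E) :=
    ContinuousLinearEquiv.comp_right_fderiv L
  have h3 := h2 (L.symm z) (by simpa using hz) (L.symm v) (by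
    rw [e2]
    simpa using hgv) (by
    rw [e1] at hΦ
    simpa using hΦ)
  simpa using h3

/-- The radial construction `Φ = exp(u) π`. -/
theorem radial {E : Type*} [NormedAddCommGroup E] [NormedSpace ℂ E] {n : ℕ} (g : E → ℂ) (p : E)
    (π : E →L[ℂ] (Fin n → ℂ)) (hπ : ∀ v, π v = 0 → ∃ c : ℂ, v = c • p)
    (u : E → ℂ) (hu : Differentiable ℂ u) (heul : ∀ z, g z = 1 → fderiv ℂ g z z = 3)
    (hJ : ∀ z, g z = 1 →
      fderiv ℂ g z p * (1 + fderiv ℂ u z z) - 3 * fderiv ℂ u z p ≠ 0) :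
    HasImm n g := by
  have hd : ∀ z, HasFDerivAt (fun z => exp (u z) • π z)
      (exp (u z) • π + (exp (u z) • fderiv ℂ u z).smulRight (π z)) z := by
    intro z
    exact ((hu z).hasFDerivAt.cexp).smul π.hasFDerivAt
  refine ⟨fun z => exp (u z) • π z, fun z => (hd z).differentiableAt, fun z hz v hgv hΦ => ?_⟩
  rw [(hd z).fderiv] at hΦ
  have h1 : exp (u z) • π (v + (fderiv ℂ u z v) • z) = 0 := by
    rw [← hΦ]
    simp only [_root_.add_apply, _root_.smul_apply, ContinuousLinearMap.smulRight_apply,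
      smul_eq_mul, map_add, map_smul, smul_add, mul_smul]
  have h2 : π (v + (fderiv ℂ u z v) • z) = 0 := (smul_eq_zero.1 h1).resolve_left (exp_ne_zero _)
  obtain ⟨c, hc⟩ := hπ _ h2
  have h3 : fderiv ℂ u z v * 3 = c * fderiv ℂ g z p := by
    have := congrArg (fderiv ℂ g z) hc
    rw [map_add, map_smul, map_smul, hgv, heul z hz, zero_add, smul_eq_mul, smul_eq_mul] at this
    exact this
  have h4 : fderiv ℂ u z v * (1 + fderiv ℂ u z z) = c * fderiv ℂ u z p := by
    have := congrArg (fderiv ℂ u z) hc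
    rw [map_add, map_smul, map_smul, smul_eq_mul, smul_eq_mul] at this
    linear_combination this
  have h5 : c * (fderiv ℂ g z p * (1 + fderiv ℂ u z z) - 3 * fderiv ℂ u z p) = 0 := by
    linear_combination -(1 + fderiv ℂ u z z) * h3 + 3 * h4
  have h6 : c = 0 := (mul_eq_zero.1 h5).resolve_right (hJ z hz)
  have h7 : fderiv ℂ u z v = 0 := by
    rw [h6, zero_mul] at h3
    exact (mul_eq_zero.1 h3).resolve_right (by norm_num)
  rw [h6, h7, zero_smul, zero_smul, add_zero] at hc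
  exact hc

/-- a linear map with prescribed kernel line -/
theorem exists_pi {E : Type*} [NormedAddCommGroup E] [NormedSpace ℂ E] [FiniteDimensional ℂ E]
    {n : ℕ} (hE : Module.finrank ℂ E = n + 1) (p : E) (hp : p ≠ 0) :
    ∃ π : E →L[ℂ] (Fin n → ℂ), ∀ v, π v = 0 → ∃ c : ℂ, v = c • p := by
  have h1 : Module.finrank ℂ (E ⧸ (ℂ ∙ p)) = n := by
    have h2 := Submodule.finrank_quotient_add_finrank (ℂ ∙ p)
    rw [finrank_span_singleton hp, hE] at h2
    omega
  have e : (E ⧸ (ℂ ∙ p)) ≃ₗ[ℂ] (Fin n → ℂ) := by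
    apply LinearEquiv.ofFinrankEq
    rw [h1]
    simp
  refine ⟨(e.toLinearMap.comp (ℂ ∙ p).mkQ).toContinuousLinearMap, fun v hv => ?_⟩
  have h3 : e ((ℂ ∙ p).mkQ v) = 0 := hv
  rw [LinearEquiv.map_eq_zero_iff, Submodule.mkQ_apply, Submodule.Quotient.mk_eq_zero,
    Submodule.mem_span_singleton] at h3
  obtain ⟨c, hc⟩ := h3
  exact ⟨c, hc.symm⟩

end Pool.Agent.Helper342.Imm
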