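import Mathlib
import Pool.Agent.Helper342.Imm.Radial

set_option linter.all false
set_option autoImplicit false
set_option maxHeartbeats 4000000
set_option synthInstance.maxHeartbeats 400000
set_option maxSynthPendingDepth 5

open Complex Set MvPolynomial

namespace Pool.Agent.Helper342.Imm

variable {E : Type*} [NormedAddCommGroup E] [NormedSpace ℂ E]

/-- `g` is a cubic form -/
def IsCubic (g : E → ℂ) : Prop :=
  ∃ T : E →L[ℂ] E →L[ℂ] E →L[ℂ] ℂ, (∀ x y z, T x y z = T y x z) ∧
    (∀ x y z, T x y z = T x z y) ∧ ∀ z, g z = T z z z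

theorem pderiv_comm' {σ : Type*} (i j : σ) (P : MvPolynomial σ ℂ) :
    pderiv i (pderiv j P) = pderiv j (pderiv i P) := by
  classical
  have h : ⁅(pderiv i : Derivation ℂ (MvPolynomial σ ℂ) (MvPolynomial σ ℂ)),
      (pderiv j : Derivation ℂ (MvPolynomial σ ℂ) (MvPolynomial σ ℂ))⁆ = 0 := by
    refine MvPolynomial.derivation_ext fun k => ?_
    rw [Derivation.commutator_apply, pderiv_X, pderiv_X]
    have h1 : ∀ a b c : σ, pderiv a ((Pi.single b 1 : σ → MvPolynomial σ ℂ) c) = 0 := by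
      intro a b c
      by_cases hbc : c = b
      · subst hbc
        simp
      · rw [Pi.single_eq_of_ne hbc]
        simp
    rw [h1, h1]
    simp
  have h2 := congrArg (fun D : Derivation ℂ (MvPolynomial σ ℂ) (MvPolynomial σ ℂ) => D P) h
  simp only [Derivation.commutator_apply, Derivation.zero_apply] at h2
  exact sub_eq_zero.1 h2

theorem euler_eval {σ : Type*} [Fintype σ] {n : ℕ} {P : MvPolynomial σ ℂ} (h : P.IsHomogeneous n)
    (x : σ → ℂ) : ∑ i, x i * eval x (pderiv i P) = n * eval x P := by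
  have := congrArg (eval x) h.sum_X_mul_pderiv
  simpa using this

theorem isCubic_eval {σ : Type*} [Fintype σ] (P : MvPolynomial σ ℂ) (hP : P.IsHomogeneous 3)
    (ℓ : σ → (E →L[ℂ] ℂ)) : IsCubic (fun z : E => eval (fun i => ℓ i z) P) := by
  classical
  set c : σ → σ → σ → ℂ := fun i j k => (1/6 : ℂ) * eval 0 (pderiv k (pderiv j (pderiv i P))) with hc
  have c1 : ∀ i j k, c i j k = c j i k := by
    intro i j k
    simp only [hc]
    rw [pderiv_comm' j i P]
  have c2 : ∀ i j k, c i j k = c i k j := by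
    intro i j k
    simp only [hc]
    rw [pderiv_comm' k j]
  have hT : ∀ x y z : E, (∑ i, ∑ j, ∑ k, c i j k • (ℓ i).smulRight ((ℓ j).smulRight (ℓ k)) :
      E →L[ℂ] E →L[ℂ] E →L[ℂ] ℂ) x y z = ∑ i, ∑ j, ∑ k, c i j k * (ℓ i x * (ℓ j y * ℓ k z)) := by
    intro x y z
    simp only [ContinuousLinearMap.sum_apply, _root_.smul_apply,
      ContinuousLinearMap.smulRight_apply, smul_eq_mul]
  refine ⟨∑ i, ∑ j, ∑ k, c i j k • (ℓ i).smulRight ((ℓ j).smulRight (ℓ k)), ?_, ?_, ?_⟩
  · intro x y z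
    rw [hT, hT, Finset.sum_comm]
    refine Finset.sum_congr rfl fun i _ => Finset.sum_congr rfl fun j _ =>
      Finset.sum_congr rfl fun k _ => ?_
    rw [c1]
    ring
  · intro x y z
    rw [hT, hT]
    refine Finset.sum_congr rfl fun i _ => ?_
    rw [Finset.sum_comm]
    refine Finset.sum_congr rfl fun j _ => Finset.sum_congr rfl fun k _ => ?_
    rw [c2]
    ring
  · intro z
    rw [hT]
    have e1 := euler_eval hP (fun i => ℓ i z)
    have e2 : ∀ i, ∑ j, ℓ j z * eval (fun i => ℓ i z) (pderiv j (pderiv i P))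
        = 2 * eval (fun i => ℓ i z) (pderiv i P) := by
      intro i
      have := euler_eval (hP.pderiv (i := i)) (fun i => ℓ i z)
      simpa using this
    have e3 : ∀ i j, ∑ k, ℓ k z * eval (fun i => ℓ i z) (pderiv k (pderiv j (pderiv i P)))
        = eval (fun i => ℓ i z) (pderiv j (pderiv i P)) := by
      intro i j
      have := euler_eval ((hP.pderiv (i := i)).pderiv (i := j)) (fun i => ℓ i z)
      simpa using this
    have e4 : ∀ i j k, eval (fun i => ℓ i z) (pderiv k (pderiv j (pderiv i P)))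
        = eval 0 (pderiv k (pderiv j (pderiv i P))) := by
      intro i j k
      have h0 : (pderiv k (pderiv j (pderiv i P))).IsHomogeneous 0 := by
        have := ((hP.pderiv (i := i)).pderiv (i := j)).pderiv (i := k)
        simpa using this
      rw [← totalDegree_zero_iff_isHomogeneous, totalDegree_eq_zero_iff_eq_C] at h0
      rw [h0]
      simp
    have e5 : eval (fun i => ℓ i z) P = (1/6 : ℂ) * ∑ i, ℓ i z *
        ∑ j, ℓ j z * ∑ k, ℓ k z * eval 0 (pderiv k (pderiv j (pderiv i P))) := by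
      have e6 : ∀ i j, ∑ k, ℓ k z * eval 0 (pderiv k (pderiv j (pderiv i P)))
          = eval (fun i => ℓ i z) (pderiv j (pderiv i P)) := by
        intro i j
        rw [← e3 i j]
        exact Finset.sum_congr rfl fun k _ => by rw [e4]
      simp only [e6, e2]
      have e7 : ∑ i, ℓ i z * (2 * eval (fun i => ℓ i z) (pderiv i P))
          = 2 * ∑ i, ℓ i z * eval (fun i => ℓ i z) (pderiv i P) := by
        rw [Finset.mul_sum]
        exact Finset.sum_congr rfl fun k _ => by ring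
      rw [e7, e1]
      push_cast
      ring
    show eval (fun i => ℓ i z) P = _
    rw [e5]
    simp only [Finset.mul_sum, hc]
    refine Finset.sum_congr rfl fun i _ => Finset.sum_congr rfl fun j _ =>
      Finset.sum_congr rfl fun k _ => ?_
    ring

theorem cubic_hasFDerivAt {g : E → ℂ} {T : E →L[ℂ] E →L[ℂ] E →L[ℂ] ℂ}
    (h1 : ∀ x y z, T x y z = T y x z) (h2 : ∀ x y z, T x y z = T x z y)
    (h3 : ∀ z, g z = T z z z) (z : E) : HasFDerivAt g ((3 : ℂ) • T z z) z := by
  have e : g = fun z => T z z z := funext h3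
  rw [e]
  have d1 : HasFDerivAt (fun z => T z) T z := T.hasFDerivAt
  have d2 := (d1.clm_apply (hasFDerivAt_id z)).clm_apply (hasFDerivAt_id z)
  refine d2.congr_fderiv ?_
  ext v
  simp
  rw [h1 v z z, h2 z v z]
  ring

theorem cubic_polar_hasFDerivAt {T : E →L[ℂ] E →L[ℂ] E →L[ℂ] ℂ}
    (h1 : ∀ x y z, T x y z = T y x z) (p z : E) :
    HasFDerivAt (fun z => (3 : ℂ) * T z z p) ((6 : ℂ) • (T z).flip p) z := by
  have d1 : HasFDerivAt (fun z => T z) T z := T.hasFDerivAt
  have d2 := ((d1.clm_apply (hasFDerivAt_id z)).clm_apply (hasFDerivAt_const p z)).const_mul (3 : ℂ)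
  refine d2.congr_fderiv ?_
  ext v
  simp
  rw [h1 v z p]
  ring

/-- singular cubic forms -/
theorem imm_sing [FiniteDimensional ℂ E] {n : ℕ} (hE : Module.finrank ℂ E = n + 1) (g : E → ℂ)
    (hg : IsCubic g) (p : E) (hp : p ≠ 0) (hs : fderiv ℂ g p = 0) : HasImm n g := by
  obtain ⟨T, h1, h2, h3⟩ := hg
  have hfd : ∀ z, HasFDerivAt g ((3 : ℂ) • T z z) z := cubic_hasFDerivAt h1 h2 h3
  have hTp : ∀ v, T p p v = 0 := by
    intro v
    have := congrArg (fun L : E →L[ℂ] ℂ => L v) hs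
    rw [(hfd p).fderiv] at this
    simpa using this
  obtain ⟨ℓ, hℓ⟩ := SeparatingDual.exists_eq_one (R := ℂ) hp
  obtain ⟨π, hπ⟩ := exists_pi hE p hp
  obtain ⟨U, hU, hJ⟩ := exists_sing
  have hb : ∀ z, HasFDerivAt (fun z => (3 : ℂ) * T z z p) ((6 : ℂ) • (T z).flip p) z :=
    cubic_polar_hasFDerivAt h1 p
  have hu : ∀ z, HasFDerivAt (fun z => U (ℓ z, 3 * T z z p))
      ((fderiv ℂ U (ℓ z, 3 * T z z p)).comp (ℓ.prod ((6 : ℂ) • (T z).flip p))) z := by
    intro z
    exact ((hU _).hasFDerivAt).comp z (ℓ.hasFDerivAt.prodMk (hb z))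
  refine radial g p π hπ (fun z => U (ℓ z, 3 * T z z p)) (fun z => (hu z).differentiableAt) ?_ ?_
  · intro z hz
    rw [(hfd z).fderiv]
    simp [← h3, hz]
  · intro z hz
    rw [(hfd z).fderiv, (hu z).fderiv]
    have e1 : ((fderiv ℂ U (ℓ z, 3 * T z z p)).comp (ℓ.prod ((6 : ℂ) • (T z).flip p))) z
        = fderiv ℂ U (ℓ z, 3 * T z z p) (ℓ z, 2 * (3 * T z z p)) := by
      simp only [ContinuousLinearMap.comp_apply, ContinuousLinearMap.prod_apply,
        _root_.smul_apply, ContinuousLinearMap.flip_apply, smul_eq_mul]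
      congr 2
      ring
    have e2 : ((fderiv ℂ U (ℓ z, 3 * T z z p)).comp (ℓ.prod ((6 : ℂ) • (T z).flip p))) p
        = fderiv ℂ U (ℓ z, 3 * T z z p) (1, 0) := by
      simp only [ContinuousLinearMap.comp_apply, ContinuousLinearMap.prod_apply,
        _root_.smul_apply, ContinuousLinearMap.flip_apply, smul_eq_mul]
      rw [h1 z p p, h2 p z p, hTp, hℓ, mul_zero]
    rw [e1, e2]
    have h4 := hJ (ℓ z) (3 * T z z p)
    set b : ℂ := 3 * T z z p with hbd
    have e3 : ((b * ℓ z - 3, 2 * b ^ 2) : ℂ × ℂ) = b • ((ℓ z, 2 * b) : ℂ × ℂ) - (3 : ℂ) • ((1, 0) : ℂ × ℂ) := by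
      ext
      · simp
      · simp; ring
    rw [e3, map_sub, map_smul, map_smul, smul_eq_mul, smul_eq_mul] at h4
    intro h5
    apply h4
    have e4 : ((3 : ℂ) • T z z) p = b := by simp [hbd]
    rw [e4] at h5
    linear_combination h5

/-- cubic forms having a point with polar quadric of rank at most one -/
theorem imm_cyc [FiniteDimensional ℂ E] {n : ℕ} (hE : Module.finrank ℂ E = n + 1) (g : E → ℂ)
    (hg : IsCubic g) (p : E) (hp : p ≠ 0) (ℓ : E →L[ℂ] ℂ)
    (hs : ∀ z, fderiv ℂ g z p = ℓ z ^ 2) : HasImm n g := by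
  have hg' := hg
  obtain ⟨T, h1, h2, h3⟩ := hg
  have hfd : ∀ z, HasFDerivAt g ((3 : ℂ) • T z z) z := cubic_hasFDerivAt h1 h2 h3
  have hs' : ∀ z, 3 * T z z p = ℓ z ^ 2 := by
    intro z
    rw [← hs z, (hfd z).fderiv]
    simp
  have hpol : ∀ z w, 3 * T z w p = ℓ z * ℓ w := by
    intro z w
    have e1 := hs' (z + w)
    have e2 := hs' z
    have e3 := hs' w
    simp only [map_add, _root_.add_apply] at e1
    have e4 := h1 w z p
    linear_combination (1/2 : ℂ) * (e1 - e2 - e3) - (3/2 : ℂ) * e4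
  by_cases ha : ℓ p = 0
  · refine imm_sing hE g hg' p hp ?_
    rw [(hfd p).fderiv]
    ext v
    have := hpol p v
    rw [ha, zero_mul] at this
    rw [_root_.smul_apply, h2 p p v, smul_eq_mul, this]
    simp
  · obtain ⟨κ, hκ⟩ : ∃ κ : ℂ, κ ^ 3 = 1 / (3 * ℓ p) :=
      IsAlgClosed.exists_pow_nat_eq _ (by norm_num)
    have hκ' : 3 * κ ^ 3 * ℓ p = 1 := by
      rw [hκ]
      field_simp
    have hκ0 : κ ≠ 0 := by
      rintro rfl
      simp at hκ'
    obtain ⟨π, hπ⟩ := exists_pi hE p hp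
    obtain ⟨V, hV, hJ⟩ := exists_cyc
    have hu : ∀ z, HasFDerivAt (fun z => V (κ * ℓ z)) (deriv V (κ * ℓ z) • (κ • ℓ)) z := by
      intro z
      exact (hV _).hasDerivAt.comp_hasFDerivAt z (ℓ.hasFDerivAt.const_mul κ)
    refine radial g p π hπ (fun z => V (κ * ℓ z)) (fun z => (hu z).differentiableAt) ?_ ?_
    · intro z hz
      rw [(hfd z).fderiv]
      simp [← h3, hz]
    · intro z hz
      rw [hs, (hu z).fderiv]
      have h4 := hJ (κ * ℓ z)
      simp only [_root_.smul_apply, smul_eq_mul]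
      intro h5
      apply h4
      linear_combination κ ^ 2 * h5 + deriv V (κ * ℓ z) * hκ'

end Pool.Agent.Helper342.Imm
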