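import Mathlib
import Pool.Agent.Helper342.Imm.CubicGrad
import Pool.Agent.Helper342.Imm.CubicId
import Pool.Agent.Helper342.Imm.Radial

set_option linter.all false

namespace Pool.Agent.Helper342.Imm.CubicMain

open Pool.Agent.Helper342.Imm Pool.Agent.Helper342.Imm.CubicGrad Pool.Agent.Helper342.Imm.CubicId Complex

theorem sq_split (u v : ℂ) : (u + I * v) ^ 2 = (u ^ 2 - v ^ 2) + I * (2 * u * v) := by
  linear_combination v ^ 2 * I_sq

theorem mul_split (u v s t : ℂ) :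
    (u + I * v) * (s + I * t) = (u * s - v * t) + I * (u * t + v * s) := by
  linear_combination v * t * I_sq

theorem pow4_split (u v : ℂ) : (u + I * v) ^ 4 =
    ((u ^ 2 - v ^ 2) ^ 2 - (2 * u * v) ^ 2) + I * (2 * (u ^ 2 - v ^ 2) * (2 * u * v)) := by
  rw [show (u + I * v) ^ 4 = ((u + I * v) ^ 2) ^ 2 by ring, sq_split, sq_split]

theorem sqsq_split (u v s t : ℂ) : (u + I * v) ^ 2 * (s + I * t) ^ 2 =
    ((u ^ 2 - v ^ 2) * (s ^ 2 - t ^ 2) - (2 * u * v) * (2 * s * t)) +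
    I * ((u ^ 2 - v ^ 2) * (2 * s * t) + (2 * u * v) * (s ^ 2 - t ^ 2)) := by
  rw [sq_split, sq_split, mul_split]

theorem sqmul_split (u v s t : ℂ) : (u + I * v) ^ 2 * (s + I * t) =
    ((u ^ 2 - v ^ 2) * s - (2 * u * v) * t) + I * ((u ^ 2 - v ^ 2) * t + (2 * u * v) * s) := by
  rw [sq_split, mul_split]

def A (b p q y : ℂ) : ℂ := A0 b p q y + I * A1 b p q y
def B (b p q y : ℂ) : ℂ := B0 b p q y + I * B1 b p q y
def K (b p q y : ℂ) : ℂ := K0 b p q y + I * K1 b p q y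

noncomputable def gA (b p q y : ℂ) : Fin 3 → ℂ := gA0 b p q y + I • gA1 b p q y
noncomputable def gB (b p q y : ℂ) : Fin 3 → ℂ := gB0 b p q y + I • gB1 b p q y
noncomputable def gK (b p q y : ℂ) : Fin 3 → ℂ := gK0 b p q y + I • gK1 b p q y

theorem hasFDerivAt_A (b : ℂ) (w : Fin 3 → ℂ) :
    HasFDerivAt (fun w : Fin 3 → ℂ => A b (w 0) (w 1) (w 2))
      (lin (gA b (w 0) (w 1) (w 2))) w := by
  have h := (hasFDerivAt_A0 b w).add ((hasFDerivAt_A1 b w).const_mul I)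
  rw [← lin_smul, ← lin_add] at h
  exact h

theorem hasFDerivAt_B (b : ℂ) (w : Fin 3 → ℂ) :
    HasFDerivAt (fun w : Fin 3 → ℂ => B b (w 0) (w 1) (w 2))
      (lin (gB b (w 0) (w 1) (w 2))) w := by
  have h := (hasFDerivAt_B0 b w).add ((hasFDerivAt_B1 b w).const_mul I)
  rw [← lin_smul, ← lin_add] at h
  exact h

theorem hasFDerivAt_K (b : ℂ) (w : Fin 3 → ℂ) :
    HasFDerivAt (fun w : Fin 3 → ℂ => K b (w 0) (w 1) (w 2))
      (lin (gK b (w 0) (w 1) (w 2))) w := by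
  have h := (hasFDerivAt_K0 b w).add ((hasFDerivAt_K1 b w).const_mul I)
  rw [← lin_smul, ← lin_add] at h
  exact h

theorem id1 (b p q y : ℂ) :
    4 * (K b p q y) ^ 2 = -(B b p q y) ^ 4 + 2 * (2 * b + 1) * ((A b p q y) ^ 2 * (B b p q y) ^ 2)
      - (A b p q y) ^ 4 - 4 * (b + 1) * b * (F b p q y) ^ 4 := by
  rw [K, A, B, sq_split, sqsq_split, pow4_split, pow4_split]
  linear_combination id1_re b p q y + I * id1_im b p q y

theorem det3_split (f u0 u1 v0 v1 : Fin 3 → ℂ) :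
    det3 f (u0 + I • u1) (v0 + I • v1) =
      (det3 f u0 v0 - det3 f u1 v1) + I * (det3 f u0 v1 + det3 f u1 v0) := by
  simp only [det3, Pi.add_apply, Pi.smul_apply, smul_eq_mul]
  linear_combination (f 0 * (u1 1 * v1 2 - u1 2 * v1 1) - f 1 * (u1 0 * v1 2 - u1 2 * v1 0)
    + f 2 * (u1 0 * v1 1 - u1 1 * v1 0)) * I_sq

theorem id2 (b p q y : ℂ) :
    det3 (gF b p q y) (gA b p q y) (gB b p q y) = 6 * K b p q y := by
  rw [gA, gB, det3_split, id2_re, id2_im, K]
  ring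

theorem id3 (b p q y : ℂ) :
    det3 (gF b p q y) (gA b p q y) (gK b p q y) =
      3 * (-(B b p q y) ^ 3 + (2 * b + 1) * (A b p q y) ^ 2 * (B b p q y)) := by
  rw [gA, gK, det3_split, id3_re, id3_im, A, B]
  generalize A0 b p q y = a0
  generalize A1 b p q y = a1
  generalize B0 b p q y = b0
  generalize B1 b p q y = b1
  have e2 : (b0 + I * b1) ^ 3 = (b0 ^ 3 - 3 * b0 * b1 ^ 2) + I * (3 * b0 ^ 2 * b1 - b1 ^ 3) := by
    linear_combination (3 * b0 * b1 ^ 2 + I * b1 ^ 3) * I_sq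
  rw [e2, mul_assoc (2 * b + 1), sqmul_split]
  ring

theorem id4 (b p q y : ℂ) :
    det3 (gF b p q y) (gB b p q y) (gK b p q y) =
      3 * ((A b p q y) ^ 3 - (2 * b + 1) * (B b p q y) ^ 2 * (A b p q y)) := by
  rw [gB, gK, det3_split, id4_re, id4_im, A, B]
  generalize A0 b p q y = a0
  generalize A1 b p q y = a1
  generalize B0 b p q y = b0
  generalize B1 b p q y = b1
  have e2 : (a0 + I * a1) ^ 3 = (a0 ^ 3 - 3 * a0 * a1 ^ 2) + I * (3 * a0 ^ 2 * a1 - a1 ^ 3) := by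
    linear_combination (3 * a0 * a1 ^ 2 + I * a1 ^ 3) * I_sq
  rw [e2, mul_assoc (2 * b + 1), sqmul_split]
  ring

/-- The auxiliary entire function of one variable. -/
theorem exists_U (m : ℂ) (hm : m ≠ 0) : ∃ U U' : ℂ → ℂ, (∀ z, HasDerivAt U (U' z) z) ∧
    ∀ z, z + 2 * (z ^ 2 - m ^ 2) * U' z = m * exp (I * Real.pi * (m - z) / (2 * m)) := by
  set g : ℂ → ℂ := fun z => m * exp (I * Real.pi * (m - z) / (2 * m)) - z with hg
  have hgd : Differentiable ℂ g := by
    simp only [hg]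
    fun_prop
  have g1 : g m = 0 := by simp [hg]
  have g2 : g (-m) = 0 := by
    have : I * Real.pi * (m - -m) / (2 * m) = Real.pi * I := by
      field_simp
      ring
    simp only [hg, this, exp_pi_mul_I]
    ring
  set h1 : ℂ → ℂ := dslope g m with hh1
  have h1d : Differentiable ℂ h1 := by
    rw [← differentiableOn_univ]
    exact (Complex.differentiableOn_dslope Filter.univ_mem).2 hgd.differentiableOn
  set h2 : ℂ → ℂ := dslope h1 (-m) with hh2
  have h2d : Differentiable ℂ h2 := by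
    rw [← differentiableOn_univ]
    exact (Complex.differentiableOn_dslope Filter.univ_mem).2 h1d.differentiableOn
  have k1 : ∀ z, (z - m) * h1 z = g z := by
    intro z
    have := sub_smul_dslope g m z
    rw [smul_eq_mul, g1, sub_zero] at this
    exact this
  have hmm : -m - m ≠ 0 := by
    intro h
    apply hm
    linear_combination (-1/2) * h
  have h1m : h1 (-m) = 0 := by
    have := k1 (-m)
    rw [g2] at this
    exact (mul_eq_zero.1 this).resolve_left hmm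
  have k2 : ∀ z, (z + m) * h2 z = h1 z := by
    intro z
    have := sub_smul_dslope h1 (-m) z
    rw [smul_eq_mul, h1m, sub_zero, sub_neg_eq_add] at this
    exact this
  obtain ⟨U, hU⟩ := (h2d.const_mul (1/2 : ℂ)).isExactOn_univ
  refine ⟨U, fun z => (1/2 : ℂ) * h2 z, fun z => hU z (Set.mem_univ z), fun z => ?_⟩
  have e1 := k1 z
  have e2 := k2 z
  have e3 : g z = m * exp (I * Real.pi * (m - z) / (2 * m)) - z := rfl
  linear_combination (z - m) * e2 + e1 + e3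

/-- Linear forms with nonzero determinant have no common zero. -/
theorem inj_of_det (f g1 g2 v : Fin 3 → ℂ) (hD : det3 f g1 g2 ≠ 0) (h0 : lin f v = 0)
    (h1 : lin g1 v = 0) (h2 : lin g2 v = 0) : v = 0 := by
  rw [lin_apply, Fin.sum_univ_three] at h0 h1 h2
  have k0 : det3 f g1 g2 * v 0 = 0 := by
    simp only [det3]
    linear_combination (g1 1 * g2 2 - g1 2 * g2 1) * h0 + (g2 1 * f 2 - g2 2 * f 1) * h1
      + (f 1 * g1 2 - f 2 * g1 1) * h2
  have k1 : det3 f g1 g2 * v 1 = 0 := by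
    simp only [det3]
    linear_combination (g1 2 * g2 0 - g1 0 * g2 2) * h0 + (g2 2 * f 0 - g2 0 * f 2) * h1
      + (f 2 * g1 0 - f 0 * g1 2) * h2
  have k2 : det3 f g1 g2 * v 2 = 0 := by
    simp only [det3]
    linear_combination (g1 0 * g2 1 - g1 1 * g2 0) * h0 + (g2 0 * f 1 - g2 1 * f 0) * h1
      + (f 0 * g1 1 - f 1 * g1 0) * h2
  funext i
  fin_cases i
  · exact (mul_eq_zero.1 k0).resolve_left hD
  · exact (mul_eq_zero.1 k1).resolve_left hD
  · exact (mul_eq_zero.1 k2).resolve_left hD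

/-- The algebraic heart: the Jacobian of the immersion. -/
theorem jac_one (GF GA GB GK : Fin 3 → ℂ) (Av Bv Kv e u' b : ℂ)
    (h1 : 4 * Kv ^ 2 = -Bv ^ 4 + 2 * (2 * b + 1) * (Av ^ 2 * Bv ^ 2) - Av ^ 4
      - 4 * (b + 1) * b)
    (h2 : det3 GF GA GB = 6 * Kv)
    (h3 : det3 GF GA GK = 3 * (-Bv ^ 3 + (2 * b + 1) * Av ^ 2 * Bv))
    (h4 : det3 GF GB GK = 3 * (Av ^ 3 - (2 * b + 1) * Bv ^ 2 * Av)) :
    det3 GF (e • (GB + (Bv * u') • GK)) (e • (GA + (Av * u') • GK))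
    = -6 * e ^ 2 * (Kv + 2 * (Kv ^ 2 + (b + 1) * b) * u') := by
  have key : det3 GF (e • (GB + (Bv * u') • GK)) (e • (GA + (Av * u') • GK))
      = e ^ 2 * (-(det3 GF GA GB) + u' * (Av * det3 GF GB GK - Bv * det3 GF GA GK)) := by
    simp only [det3, Pi.add_apply, Pi.smul_apply, smul_eq_mul]
    ring
  rw [key, h2, h3, h4]
  linear_combination (3 * e ^ 2 * u') * h1

theorem imm_normal (b : ℂ) (hb : b ≠ 0) (hb1 : b + 1 ≠ 0) :
    HasImm 2 (fun w : Fin 3 → ℂ => F b (w 0) (w 1) (w 2)) := by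
  obtain ⟨m, hm⟩ : ∃ m : ℂ, m ^ 2 = -((b + 1) * b) :=
    IsAlgClosed.exists_pow_nat_eq _ (by norm_num)
  have hm0 : m ≠ 0 := by
    rintro rfl
    have : (b + 1) * b = 0 := by linear_combination hm
    rcases mul_eq_zero.1 this with h | h
    · exact hb1 h
    · exact hb h
  obtain ⟨U, U', hU, hUU⟩ := exists_U m hm0
  set Ff : (Fin 3 → ℂ) → ℂ := fun w => F b (w 0) (w 1) (w 2) with hFf
  set Af : (Fin 3 → ℂ) → ℂ := fun w => A b (w 0) (w 1) (w 2) with hAf
  set Bf : (Fin 3 → ℂ) → ℂ := fun w => B b (w 0) (w 1) (w 2) with hBf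
  set Kf : (Fin 3 → ℂ) → ℂ := fun w => K b (w 0) (w 1) (w 2) with hKf
  have hder : ∀ w : Fin 3 → ℂ,
      HasFDerivAt (fun w => Bf w * exp (U (Kf w)))
        (lin (exp (U (Kf w)) • (gB b (w 0) (w 1) (w 2)
          + (Bf w * U' (Kf w)) • gK b (w 0) (w 1) (w 2)))) w ∧
      HasFDerivAt (fun w => Af w * exp (U (Kf w)))
        (lin (exp (U (Kf w)) • (gA b (w 0) (w 1) (w 2)
          + (Af w * U' (Kf w)) • gK b (w 0) (w 1) (w 2)))) w := by
    intro w
    have dA : HasFDerivAt Af (lin (gA b (w 0) (w 1) (w 2))) w := hasFDerivAt_A b w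
    have dB : HasFDerivAt Bf (lin (gB b (w 0) (w 1) (w 2))) w := hasFDerivAt_B b w
    have dK : HasFDerivAt Kf (lin (gK b (w 0) (w 1) (w 2))) w := hasFDerivAt_K b w
    have dE : HasFDerivAt (fun w => exp (U (Kf w))) (exp (U (Kf w)) • (U' (Kf w) • lin
        (gK b (w 0) (w 1) (w 2)))) w :=
      ((hU (Kf w)).comp_hasFDerivAt w dK).cexp
    refine ⟨?_, ?_⟩
    · refine (dB.mul dE).congr_fderiv ?_
      simp only [lin_smul, lin_add]
      ext v
      simp only [_root_.add_apply, _root_.smul_apply, smul_eq_mul]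
      ring
    · refine (dA.mul dE).congr_fderiv ?_
      simp only [lin_smul, lin_add]
      ext v
      simp only [_root_.add_apply, _root_.smul_apply, smul_eq_mul]
      ring
  have hfd : ∀ z, HasFDerivAt (fun w => ![Bf w * exp (U (Kf w)), Af w * exp (U (Kf w))])
      (ContinuousLinearMap.pi ![(lin (exp (U (Kf z)) • (gB b (z 0) (z 1) (z 2)
          + (Bf z * U' (Kf z)) • gK b (z 0) (z 1) (z 2)))),
        (lin (exp (U (Kf z)) • (gA b (z 0) (z 1) (z 2)
          + (Af z * U' (Kf z)) • gK b (z 0) (z 1) (z 2))))]) z := by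
    intro z
    rw [hasFDerivAt_pi]
    intro i
    fin_cases i
    · exact (hder z).1
    · exact (hder z).2
  refine ⟨fun w => ![Bf w * exp (U (Kf w)), Af w * exp (U (Kf w))],
    fun z => (hfd z).differentiableAt, fun z hz v hgv hΦ => ?_⟩
  have dF : HasFDerivAt Ff (lin (gF b (z 0) (z 1) (z 2))) z := hasFDerivAt_F b z
  have hz' : Ff z = 1 := hz
  change fderiv ℂ Ff z v = 0 at hgv
  rw [dF.fderiv] at hgv
  rw [(hfd z).fderiv] at hΦ
  have hΦ0 := congrFun hΦ 0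
  have hΦ1 := congrFun hΦ 1
  have i1 := id1 b (z 0) (z 1) (z 2)
  have hF1 : F b (z 0) (z 1) (z 2) = 1 := hz
  rw [hF1] at i1
  have hD := jac_one (gF b (z 0) (z 1) (z 2))
      (gA b (z 0) (z 1) (z 2)) (gB b (z 0) (z 1) (z 2)) (gK b (z 0) (z 1) (z 2))
      (Af z) (Bf z) (Kf z) (exp (U (Kf z))) (U' (Kf z)) b (by
        simp only [hAf, hBf, hKf]
        linear_combination i1) (id2 b _ _ _)
      (id3 b _ _ _) (id4 b _ _ _)
  have hval : (Kf z + 2 * ((Kf z) ^ 2 + (b + 1) * b) * U' (Kf z)) ≠ 0 := by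
    have h := hUU (Kf z)
    have e : Kf z + 2 * ((Kf z) ^ 2 - m ^ 2) * U' (Kf z) =
        Kf z + 2 * ((Kf z) ^ 2 + (b + 1) * b) * U' (Kf z) := by
      rw [hm]
      ring
    rw [← e, h]
    exact mul_ne_zero hm0 (exp_ne_zero _)
  have hne : -6 * exp (U (Kf z)) ^ 2 *
      (Kf z + 2 * ((Kf z) ^ 2 + (b + 1) * b) * U' (Kf z)) ≠ 0 := by
    refine mul_ne_zero (mul_ne_zero (by norm_num) (pow_ne_zero 2 (exp_ne_zero _))) hval
  rw [← hD] at hne
  exact inj_of_det _ _ _ v hne hgv hΦ0 hΦ1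

end Pool.Agent.Helper342.Imm.CubicMain
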