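import Mathlib
import Pool.Agent.Helper342.Imm.Cubic
import Pool.Agent.Helper342.Imm.CubicNormal

set_option linter.all false
set_option autoImplicit false
set_option maxHeartbeats 4000000
set_option synthInstance.maxHeartbeats 400000
set_option maxSynthPendingDepth 5

open Complex Set MvPolynomial

namespace Pool.Agent.Helper342.Imm

/-- the cubic form of the problem -/
noncomputable def cf (n : ℕ) (g f : MvPolynomial (Fin n) ℂ) : (Fin n → ℂ) × ℂ → ℂ :=
  fun y => y.2 ^ 3 + y.2 * MvPolynomial.eval y.1 g + MvPolynomial.eval y.1 f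

noncomputable def bigP (n : ℕ) (g f : MvPolynomial (Fin n) ℂ) : MvPolynomial (Option (Fin n)) ℂ :=
  X none ^ 3 + X none * rename some g + rename some f

theorem bigP_hom {n : ℕ} {g f : MvPolynomial (Fin n) ℂ} (hg : g.IsHomogeneous 2)
    (hf : f.IsHomogeneous 3) : (bigP n g f).IsHomogeneous 3 := by
  refine ((?_ : IsHomogeneous _ 3).add (?_ : IsHomogeneous _ 3)).add hf.rename_isHomogeneous
  · have := (isHomogeneous_X ℂ (none : Option (Fin n))).pow 3
    simpa using this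
  · have := (isHomogeneous_X ℂ (none : Option (Fin n))).mul (hg.rename_isHomogeneous (f := some))
    simpa using this

theorem cf_isCubic {n : ℕ} {g f : MvPolynomial (Fin n) ℂ} (hg : g.IsHomogeneous 2)
    (hf : f.IsHomogeneous 3) : IsCubic (cf n g f) := by
  have h := isCubic_eval (E := (Fin n → ℂ) × ℂ) (bigP n g f) (bigP_hom hg hf)
    (fun o => o.elim (ContinuousLinearMap.snd ℂ (Fin n → ℂ) ℂ)
      (fun i => (ContinuousLinearMap.proj i : (Fin n → ℂ) →L[ℂ] ℂ).comp
        (ContinuousLinearMap.fst ℂ (Fin n → ℂ) ℂ)))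
  convert h using 1
  funext y
  simp only [cf, bigP, map_add, map_mul, map_pow, eval_X, eval_rename]
  rfl

theorem finrank_E (n : ℕ) : Module.finrank ℂ ((Fin n → ℂ) × ℂ) = n + 1 := by
  rw [Module.finrank_prod]
  simp

/-- dimension zero -/
theorem imm_zero {g f : MvPolynomial (Fin 0) ℂ} (hg : g.IsHomogeneous 2)
    (hf : f.IsHomogeneous 3) : HasImm 0 (cf 0 g f) := by
  obtain ⟨T, h1, h2, h3⟩ := cf_isCubic hg hf
  refine ⟨fun _ => 0, differentiable_const _, fun z hz v hv _ => ?_⟩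
  rw [(cubic_hasFDerivAt h1 h2 h3 z).fderiv] at hv
  have hz2 : z.2 ≠ 0 := by
    intro h
    have hz0 : z = 0 := by
      ext i
      · exact i.elim0
      · exact h
    rw [hz0] at hz
    rw [h3] at hz
    simp at hz
  have hvz : v = (v.2 / z.2) • z := by
    ext i
    · exact i.elim0
    · simp
      field_simp
  rw [hvz] at hv ⊢
  have h4 : T z z z = 1 := by rw [← h3]; exact hz
  rw [_root_.smul_apply, map_smul, h4] at hv
  have h5 : v.2 / z.2 = 0 := by
    simpa using hv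
  rw [h5, zero_smul]

/-- dimension one -/
theorem imm_one {g f : MvPolynomial (Fin 1) ℂ} (hg : g.IsHomogeneous 2)
    (hf : f.IsHomogeneous 3) : HasImm 1 (cf 1 g f) := by
  have hC := cf_isCubic hg hf
  obtain ⟨T, h1, h2, h3⟩ := cf_isCubic hg hf
  have hfd : ∀ z, HasFDerivAt (cf 1 g f) ((3 : ℂ) • T z z) z := cubic_hasFDerivAt h1 h2 h3
  set e1 : (Fin 1 → ℂ) × ℂ := (fun _ => 1, 0) with he1
  set e2 : (Fin 1 → ℂ) × ℂ := (0, 1) with he2
  have hdec : ∀ z : (Fin 1 → ℂ) × ℂ, z = z.1 0 • e1 + z.2 • e2 := by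
    intro z
    ext i
    · have : i = 0 := Subsingleton.elim _ _
      subst this
      simp [he1, he2]
    · simp [he1, he2]
  -- the polar of p is degenerate
  have hdeg : ∃ p : (Fin 1 → ℂ) × ℂ, p ≠ 0 ∧ T p e1 e1 * T p e2 e2 = T p e1 e2 ^ 2 := by
    set a := T e1 e1 e1
    set b := T e1 e1 e2
    set c := T e1 e2 e2
    set d := T e2 e2 e2
    have hb1 : T e2 e1 e1 = b := by rw [h1 e2 e1 e1, h2 e1 e2 e1]
    have hc1 : T e2 e1 e2 = c := by rw [h1 e2 e1 e2]
    have hc2 : T e2 e2 e1 = c := by rw [h2 e2 e2 e1, h1 e2 e1 e2]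
    -- p = s e1 + t e2
    have hq : ∀ s t : ℂ, T (s • e1 + t • e2) e1 e1 * T (s • e1 + t • e2) e2 e2
        - T (s • e1 + t • e2) e1 e2 ^ 2
        = s ^ 2 * (a * c - b ^ 2) + s * t * (a * d - b * c) + t ^ 2 * (b * d - c ^ 2) := by
      intro s t
      simp only [map_add, map_smul, _root_.add_apply, _root_.smul_apply, smul_eq_mul, hb1, hc1]
      ring
    by_cases h0 : a * c - b ^ 2 = 0
    · refine ⟨e1, ?_, ?_⟩
      · intro h
        have := congrArg (fun z : (Fin 1 → ℂ) × ℂ => z.1 0) h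
        simp [he1] at this
      · have := hq 1 0
        simp [h0] at this
        exact sub_eq_zero.1 this
    · obtain ⟨r, hr⟩ : ∃ r : ℂ, r ^ 2 = (a * d - b * c) ^ 2 - 4 * (a * c - b ^ 2) * (b * d - c ^ 2) :=
        IsAlgClosed.exists_pow_nat_eq _ (by norm_num)
      refine ⟨((-(a * d - b * c) + r) / (2 * (a * c - b ^ 2))) • e1 + (1 : ℂ) • e2, ?_, ?_⟩
      · intro h
        have := congrArg (fun z : (Fin 1 → ℂ) × ℂ => z.2) h
        simp [he1, he2] at this
      · have := hq ((-(a * d - b * c) + r) / (2 * (a * c - b ^ 2))) 1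
        refine sub_eq_zero.1 (this.trans ?_)
        field_simp
        linear_combination hr
  obtain ⟨p, hp, hpd⟩ := hdeg
  have hpe : T p e2 e1 = T p e1 e2 := h2 p e2 e1
  have hzz : ∀ z : (Fin 1 → ℂ) × ℂ, T z z p = z.1 0 ^ 2 * T p e1 e1 + 2 * z.1 0 * z.2 * T p e1 e2
      + z.2 ^ 2 * T p e2 e2 := by
    intro z
    have e : T z z p = T p z z := by rw [h2 z z p, h1 z p z]
    rw [e]
    conv_lhs => rw [hdec z]
    simp only [map_add, map_smul, _root_.add_apply, _root_.smul_apply, smul_eq_mul, hpe]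
    ring
  obtain ⟨α, hα⟩ : ∃ α : ℂ, α ^ 2 = 3 * T p e1 e1 := IsAlgClosed.exists_pow_nat_eq _ (by norm_num)
  obtain ⟨β, hβ⟩ : ∃ β : ℂ, β ^ 2 = 3 * T p e2 e2 := IsAlgClosed.exists_pow_nat_eq _ (by norm_num)
  have hαβ : (α * β) ^ 2 = (3 * T p e1 e2) ^ 2 := by
    rw [mul_pow, hα, hβ]
    linear_combination 9 * hpd
  obtain ⟨β', hβ', hαβ'⟩ : ∃ β' : ℂ, β' ^ 2 = 3 * T p e2 e2 ∧ α * β' = 3 * T p e1 e2 := by
    rcases sq_eq_sq_iff_eq_or_eq_neg.1 hαβ with h | h
    · exact ⟨β, hβ, h⟩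
    · exact ⟨-β, by rw [neg_sq, hβ], by rw [mul_neg, h, neg_neg]⟩
  refine imm_cyc (finrank_E 1) (cf 1 g f) hC p hp
    (α • ((ContinuousLinearMap.proj 0 : (Fin 1 → ℂ) →L[ℂ] ℂ).comp
        (ContinuousLinearMap.fst ℂ (Fin 1 → ℂ) ℂ)) + β' • ContinuousLinearMap.snd ℂ (Fin 1 → ℂ) ℂ) ?_
  intro z
  rw [(hfd z).fderiv]
  have : ((3 : ℂ) • T z z) p = 3 * T z z p := by simp
  rw [this, hzz]
  simp only [_root_.add_apply, _root_.smul_apply, ContinuousLinearMap.comp_apply,
    ContinuousLinearMap.proj_apply, ContinuousLinearMap.coe_fst',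
    ContinuousLinearMap.coe_snd', smul_eq_mul]
  linear_combination (-(z.1 0) ^ 2) * hα - z.2 ^ 2 * hβ' - 2 * z.1 0 * z.2 * hαβ'

/-- coordinates for `n = 2` -/
noncomputable def L3 : (Fin 3 → ℂ) ≃ₗ[ℂ] (Fin 2 → ℂ) × ℂ where
  toFun w := (fun i => w i.castSucc, w 2)
  invFun z := ![z.1 0, z.1 1, z.2]
  map_add' a b := rfl
  map_smul' c a := rfl
  left_inv w := by
    funext i
    fin_cases i <;> rfl
  right_inv z := by
    ext i
    · fin_cases i <;> rfl
    · rfl

/-- dimension two -/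
theorem imm_two {g f : MvPolynomial (Fin 2) ℂ} (hg : g.IsHomogeneous 2)
    (hf : f.IsHomogeneous 3) : HasImm 2 (cf 2 g f) := by
  have hC := cf_isCubic hg hf
  by_cases hs : ∃ p : (Fin 2 → ℂ) × ℂ, p ≠ 0 ∧ fderiv ℂ (cf 2 g f) p = 0
  · obtain ⟨p, hp, h⟩ := hs
    exact imm_sing (finrank_E 2) _ hC p hp h
  · push Not at hs
    set L : (Fin 3 → ℂ) ≃L[ℂ] (Fin 2 → ℂ) × ℂ := L3.toContinuousLinearEquiv with hL
    set P : MvPolynomial (Fin 3) ℂ := X 2 ^ 3 + X 2 * rename Fin.castSucc g + rename Fin.castSucc f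
      with hP
    have hPh : P.IsHomogeneous 3 := by
      refine ((?_ : IsHomogeneous _ 3).add (?_ : IsHomogeneous _ 3)).add hf.rename_isHomogeneous
      · have := (isHomogeneous_X ℂ (2 : Fin 3)).pow 3
        simpa using this
      · have := (isHomogeneous_X ℂ (2 : Fin 3)).mul (hg.rename_isHomogeneous (f := Fin.castSucc))
        simpa using this
    have he : (fun w : Fin 3 → ℂ => cf 2 g f (L w)) = fun w => eval w P := by
      funext w
      simp only [cf, hP, map_add, map_mul, map_pow, eval_X, eval_rename]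
      rfl
    refine HasImm.of_equiv L ?_
    rw [he]
    refine CubicNormal.imm_smooth P hPh fun z hz _ => ?_
    by_contra hno
    push Not at hno
    have h1 := CubicGrad.hasFDerivAt_eval P z
    have h2 : CubicGrad.lin (fun i => eval z (pderiv i P)) = 0 := by
      ext v
      simp [CubicGrad.lin_apply, hno]
    rw [h2] at h1
    have h3 : fderiv ℂ (fun w : Fin 3 → ℂ => cf 2 g f (L w)) z = 0 := by
      rw [he]
      exact h1.fderiv
    obtain ⟨T, t1, t2, t3⟩ := hC
    have hfd : HasFDerivAt (cf 2 g f) ((3 : ℂ) • T (L z) (L z)) (L z) := cubic_hasFDerivAt t1 t2 t3 _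
    have h4 : HasFDerivAt (fun w : Fin 3 → ℂ => cf 2 g f (L w))
        ((fderiv ℂ (cf 2 g f) (L z)).comp (L : (Fin 3 → ℂ) →L[ℂ] (Fin 2 → ℂ) × ℂ)) z := by
      rw [hfd.fderiv]
      exact hfd.comp z L.hasFDerivAt
    rw [h4.fderiv] at h3
    refine hs (L z) (by simpa using hz) ?_
    refine ContinuousLinearMap.ext fun v => ?_
    have h5 := congrArg (fun A : (Fin 3 → ℂ) →L[ℂ] ℂ => A (L.symm v)) h3
    simpa using h5

end Pool.Agent.Helper342.Imm
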