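import Mathlib
import Pool.Agent.Helper342.Imm.Radial

set_option linter.all false
set_option autoImplicit false
set_option maxHeartbeats 4000000
set_option synthInstance.maxHeartbeats 400000

open Complex Set MeasureTheory

namespace Pool.Agent.Helper342.Imm

/-- solving `d P r_P + e Q r_Q = G(P) B(Q) - G(0) B(0)` -/
theorem exists_euler_gen (d e : ℕ) (G B : ℂ → ℂ) (hG : Differentiable ℂ G)
    (hB : Differentiable ℂ B) :
    ∃ r : ℂ × ℂ → ℂ, Differentiable ℂ r ∧
      ∀ P Q : ℂ, fderiv ℂ r (P, Q) (((d + 1 : ℕ) : ℂ) * P, ((e + 1 : ℕ) : ℂ) * Q)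
        = G P * B Q - G 0 * B 0 := by
  have hG1 : ContDiff ℂ 1 (dslope G 0) := (entire_dslope hG 0).contDiff
  have hB1 : ContDiff ℂ 1 (dslope B 0) := (entire_dslope hB 0).contDiff
  have hBc : ContDiff ℂ 1 B := hB.contDiff
  have eG : ∀ y, y * dslope G 0 y = G y - G 0 := by
    intro y
    have := sub_smul_dslope G 0 y
    rwa [smul_eq_mul, sub_zero] at this
  have eB : ∀ y, y * dslope B 0 y = B y - B 0 := by
    intro y
    have := sub_smul_dslope B 0 y
    rwa [smul_eq_mul, sub_zero] at this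
  set G1 := dslope G 0 with hG1d
  set B1 := dslope B 0 with hB1d
  set M : ℂ × (ℂ × ℂ) → ℂ := fun x =>
    x.1 ^ d * x.2.1 * G1 (x.1 ^ (d + 1) * x.2.1) * B (x.1 ^ (e + 1) * x.2.2)
      + G 0 * (x.1 ^ e * x.2.2 * B1 (x.1 ^ (e + 1) * x.2.2)) with hM
  have hMc : ContDiff ℂ 1 M := by
    simp only [hM]
    fun_prop
  set r : ℂ × ℂ → ℂ := fun y => ∫ s in (0:ℝ)..1, M ((s : ℂ), y) with hr
  have hrd : Differentiable ℂ r := diff_param M hMc
  refine ⟨r, hrd, fun P Q => ?_⟩
  have hMs : ∀ (s τ : ℂ), M (s, (τ ^ (d + 1) * P, τ ^ (e + 1) * Q)) = τ * M (s * τ, (P, Q)) := by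
    intro s τ
    simp only [hM]
    have e1 : s ^ (d + 1) * (τ ^ (d + 1) * P) = (s * τ) ^ (d + 1) * P := by ring
    have e2 : s ^ (e + 1) * (τ ^ (e + 1) * Q) = (s * τ) ^ (e + 1) * Q := by ring
    rw [e1, e2]
    ring
  have hM1 : M (1, (P, Q)) = G P * B Q - G 0 * B 0 := by
    simp only [hM]
    have e1 := eG P
    have e2 := eB Q
    simp only [one_pow, one_mul]
    linear_combination (B Q) * e1 + G 0 * e2
  have h1 : ∀ τ : ℝ, r (((τ : ℂ)) ^ (d + 1) * P, (τ : ℂ) ^ (e + 1) * Q)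
      = ∫ σ in (0:ℝ)..τ, M ((σ : ℂ), (P, Q)) := by
    intro τ
    simp only [hr]
    have : (fun s : ℝ => M ((s : ℂ), ((τ : ℂ) ^ (d + 1) * P, (τ : ℂ) ^ (e + 1) * Q)))
        = fun s : ℝ => (τ : ℂ) * M (((s * τ : ℝ) : ℂ), (P, Q)) := by
      funext s
      rw [hMs]
      push_cast
      rfl
    rw [this, intervalIntegral.integral_const_mul]
    by_cases hτ : τ = 0
    · subst hτ
      simp
    · rw [intervalIntegral.integral_comp_mul_right (fun s : ℝ => M ((s : ℂ), (P, Q))) hτ]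
      simp only [zero_mul, one_mul, Complex.real_smul]
      rw [← mul_assoc, Complex.ofReal_inv, mul_inv_cancel₀ (by exact_mod_cast hτ), one_mul]
  have hc : Continuous (fun σ : ℝ => M ((σ : ℂ), (P, Q))) := hMc.continuous.comp (by fun_prop)
  have h2 : HasDerivAt (fun τ : ℝ => ∫ σ in (0:ℝ)..τ, M ((σ : ℂ), (P, Q)))
      (M (((1:ℝ) : ℂ), (P, Q))) 1 :=
    intervalIntegral.integral_hasDerivAt_right (hc.intervalIntegrable _ _)
      (hc.stronglyMeasurableAtFilter _ _) hc.continuousAt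
  have hpow : ∀ (k : ℕ) (R : ℂ), HasDerivAt (fun τ : ℝ => ((τ : ℂ)) ^ (k + 1) * R)
      (((k + 1 : ℕ) : ℂ) * R) 1 := by
    intro k R
    have := ((Complex.ofRealCLM.hasDerivAt (x := (1:ℝ))).pow (k + 1)).mul_const R
    simpa using this
  have h3 : HasDerivAt (fun τ : ℝ => (((τ : ℂ)) ^ (d + 1) * P, (τ : ℂ) ^ (e + 1) * Q))
      (((d + 1 : ℕ) : ℂ) * P, ((e + 1 : ℕ) : ℂ) * Q) 1 := (hpow d P).prodMk (hpow e Q)
  have h4 : HasDerivAt (fun τ : ℝ => r (((τ : ℂ)) ^ (d + 1) * P, (τ : ℂ) ^ (e + 1) * Q))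
      (fderiv ℂ r (P, Q) (((d + 1 : ℕ) : ℂ) * P, ((e + 1 : ℕ) : ℂ) * Q)) 1 := by
    have hf : HasFDerivAt r ((fderiv ℂ r (P, Q)))
        ((((1:ℝ) : ℂ)) ^ (d + 1) * P, ((1:ℝ) : ℂ) ^ (e + 1) * Q) := by
      have := (hrd (P, Q)).hasFDerivAt
      simpa using this
    exact (hf.restrictScalars ℝ).comp_hasDerivAt (1:ℝ) h3
  have h5 : (fun τ : ℝ => r (((τ : ℂ)) ^ (d + 1) * P, (τ : ℂ) ^ (e + 1) * Q)) =
      fun τ : ℝ => ∫ σ in (0:ℝ)..τ, M ((σ : ℂ), (P, Q)) := funext h1
  rw [h5] at h4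
  have h6 := h4.unique h2
  rw [h6, Complex.ofReal_one, hM1]

/-- the one variable ingredient -/
theorem exists_A_gen (d e : ℂ) (hd : d ≠ 0) (he : e ≠ 0) :
    ∃ A A' G : ℂ → ℂ, (∀ z, HasDerivAt A (A' z) z) ∧ Differentiable ℂ G ∧
    (∀ z, G z ≠ 0) ∧ ∀ z, (e + (d - e) * z) * A z - d * z * (1 - z) * A' z = G z := by
  set c : ℂ := Complex.log (d / e) with hc
  have hec : exp c = d / e := Complex.exp_log (div_ne_zero hd he)
  set g : ℂ → ℂ := fun z => e * exp (c * z) - (d - e) * z - e with hg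
  have hgd : Differentiable ℂ g := by
    simp only [hg]
    fun_prop
  have g1 : g 0 = 0 := by simp [hg]
  have g2 : g 1 = 0 := by
    simp only [hg, mul_one, hec]
    field_simp
    ring
  have h1d : Differentiable ℂ (dslope g 0) := entire_dslope hgd 0
  have h2d : Differentiable ℂ (dslope (dslope g 0) 1) := entire_dslope h1d 1
  have k1 : ∀ z, z * dslope g 0 z = g z := by
    intro z
    have := sub_smul_dslope g 0 z
    rwa [smul_eq_mul, g1, sub_zero, sub_zero] at this
  have h11 : dslope g 0 1 = 0 := by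
    have := k1 1
    rwa [g2, one_mul] at this
  have k2 : ∀ z, (z - 1) * dslope (dslope g 0) 1 z = dslope g 0 z := by
    intro z
    have := sub_smul_dslope (dslope g 0) 1 z
    rwa [smul_eq_mul, h11, sub_zero] at this
  obtain ⟨l, hl⟩ := (h2d.const_mul (d⁻¹ : ℂ)).isExactOn_univ
  have hl' : ∀ z, HasDerivAt l (d⁻¹ * dslope (dslope g 0) 1 z) z := fun z => hl z (mem_univ z)
  refine ⟨fun z => exp (l z), fun z => exp (l z) * (d⁻¹ * dslope (dslope g 0) 1 z),
    fun z => exp (l z) * (e * exp (c * z)), fun z => (hl' z).cexp, ?_, ?_, ?_⟩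
  · have : Differentiable ℂ l := fun z => (hl' z).differentiableAt
    fun_prop
  · intro z
    exact mul_ne_zero (exp_ne_zero _) (mul_ne_zero he (exp_ne_zero _))
  · intro z
    have e1 := k1 z
    have e2 := k2 z
    have e3 : g z = e * exp (c * z) - (d - e) * z - e := rfl
    have e4 : d * d⁻¹ = 1 := mul_inv_cancel₀ hd
    have e5 : (z - 1) * z * dslope (dslope g 0) 1 z = e * exp (c * z) - (d - e) * z - e := by
      rw [← e3, ← e1, ← e2]
      ring
    linear_combination (exp (l z)) * e5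
      + exp (l z) * (z - 1) * z * dslope (dslope g 0) 1 z * e4

/-- The universal function for polynomials affine in one variable. -/
theorem exists_univ (d' e' : ℕ) : ∃ U : ℂ × ℂ → ℂ, Differentiable ℂ U ∧
    ∀ x b : ℂ, b + fderiv ℂ U (x, b)
      ((((d' + 1 : ℕ) : ℂ) - ((e' + 1 : ℕ) : ℂ)) * (b * x) - ((d' + 1 : ℕ) : ℂ),
        ((e' + 1 : ℕ) : ℂ) * b ^ 2) ≠ 0 := by
  have hd : ((d' + 1 : ℕ) : ℂ) ≠ 0 := by exact_mod_cast Nat.succ_ne_zero d'
  have he : ((e' + 1 : ℕ) : ℂ) ≠ 0 := by exact_mod_cast Nat.succ_ne_zero e'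
  obtain ⟨A, A', G, hA, hG, hG0, hAG⟩ := exists_A_gen _ _ hd he
  set lam : ℂ := (G 0)⁻¹ with hlam
  have hE : Differentiable ℂ (dslope exp 0) := entire_dslope Complex.differentiable_exp 0
  have kE : ∀ y, y * dslope exp 0 y = exp y - 1 := by
    intro y
    have := sub_smul_dslope exp 0 y
    rwa [smul_eq_mul, sub_zero, exp_zero] at this
  have hB : Differentiable ℂ (fun Q => lam * dslope exp 0 (lam * Q)) := by
    have : Differentiable ℂ (fun Q : ℂ => lam * Q) := by fun_prop
    exact (hE.comp this).const_mul lam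
  obtain ⟨r, hr, hre⟩ := exists_euler_gen d' e' G (fun Q => lam * dslope exp 0 (lam * Q)) hG hB
  set d : ℂ := ((d' + 1 : ℕ) : ℂ) with hdd
  set e : ℂ := ((e' + 1 : ℕ) : ℂ) with hee
  have hAd : Differentiable ℂ A := fun z => (hA z).differentiableAt
  have hUd : Differentiable ℂ (fun y : ℂ × ℂ => -(y.1 * A (1 - y.1 * y.2)) + r (1 - y.1 * y.2, y.2)) := by
    fun_prop
  refine ⟨fun y => -(y.1 * A (1 - y.1 * y.2)) + r (1 - y.1 * y.2, y.2), hUd, fun x b => ?_⟩
  set v1 : ℂ := (d - e) * (b * x) - d with hv1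
  set v2 : ℂ := e * b ^ 2 with hv2
  have a1 : HasDerivAt (fun t : ℂ => x + t * v1) v1 0 := by
    simpa using ((hasDerivAt_id (0:ℂ)).mul_const v1).const_add x
  have a2 : HasDerivAt (fun t : ℂ => b + t * v2) v2 0 := by
    simpa using ((hasDerivAt_id (0:ℂ)).mul_const v2).const_add b
  have hdir : HasDerivAt (fun t : ℂ => (x + t * v1, b + t * v2)) (v1, v2) 0 := a1.prodMk a2
  have hP : HasDerivAt (fun t : ℂ => 1 - (x + t * v1) * (b + t * v2)) (d * b * (1 - x * b)) 0 := by
    have := (a1.mul a2).const_sub 1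
    refine this.congr_deriv ?_
    simp only [hv1, hv2, zero_mul, add_zero]
    ring
  have h1 : HasDerivAt (fun t : ℂ => -((x + t * v1) *
      A (1 - (x + t * v1) * (b + t * v2))) + r (1 - (x + t * v1) * (b + t * v2), b + t * v2))
      (-(v1 * A (1 - x * b) + x * (A' (1 - x * b) * (d * b * (1 - x * b))))
        + fderiv ℂ r (1 - x * b, b) (d * b * (1 - x * b), v2)) 0 := by
    have a3 : HasDerivAt (fun t : ℂ => A (1 - (x + t * v1) * (b + t * v2)))
        (A' (1 - x * b) * (d * b * (1 - x * b))) 0 := by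
      have hh : HasDerivAt A (A' (1 - x * b)) (1 - (x + 0 * v1) * (b + 0 * v2)) := by
        simpa using hA (1 - x * b)
      exact HasDerivAt.comp (0:ℂ) hh hP
    have a4 : HasDerivAt (fun t : ℂ => r (1 - (x + t * v1) * (b + t * v2), b + t * v2))
        (fderiv ℂ r (1 - x * b, b) (d * b * (1 - x * b), v2)) 0 := by
      have hf : HasFDerivAt r (fderiv ℂ r (1 - x * b, b))
          (1 - (x + 0 * v1) * (b + 0 * v2), b + 0 * v2) := by
        have := (hr (1 - x * b, b)).hasFDerivAt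
        simpa using this
      exact hf.comp_hasDerivAt (0:ℂ) (hP.prodMk a2)
    have a5 := (a1.mul a3).neg.add a4
    refine a5.congr_deriv ?_
    simp
  have h2 : HasDerivAt (fun t : ℂ => -((x + t * v1) *
      A (1 - (x + t * v1) * (b + t * v2))) + r (1 - (x + t * v1) * (b + t * v2), b + t * v2))
      (fderiv ℂ (fun y : ℂ × ℂ => -(y.1 * A (1 - y.1 * y.2)) + r (1 - y.1 * y.2, y.2)) (x, b)
        (v1, v2)) 0 := by
    have hf : HasFDerivAt (fun y : ℂ × ℂ => -(y.1 * A (1 - y.1 * y.2)) + r (1 - y.1 * y.2, y.2))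
        (fderiv ℂ (fun y : ℂ × ℂ => -(y.1 * A (1 - y.1 * y.2)) + r (1 - y.1 * y.2, y.2)) (x, b))
        (x + 0 * v1, b + 0 * v2) := by
      have := (hUd (x, b)).hasFDerivAt
      simpa using this
    exact hf.comp_hasDerivAt (0:ℂ) hdir
  have h3 := h2.unique h1
  rw [h3]
  have h4 : fderiv ℂ r (1 - x * b, b) (d * b * (1 - x * b), v2)
      = b * (G (1 - x * b) * (lam * dslope exp 0 (lam * b)) - G 0 * (lam * dslope exp 0 (lam * 0))) := by
    have e1 : ((d * b * (1 - x * b), v2) : ℂ × ℂ) = b • ((d * (1 - x * b), e * b) : ℂ × ℂ) := by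
      ext
      · simp; ring
      · simp [hv2]; ring
    rw [e1, map_smul, hre, smul_eq_mul]
  have h5 : G 0 * (lam * dslope exp 0 (lam * 0)) = 1 := by
    have : dslope exp 0 (lam * 0) = 1 := by
      rw [mul_zero, dslope_same]
      simp
    rw [this, mul_one, hlam, mul_inv_cancel₀ (hG0 0)]
  rw [h4, h5]
  have h6 : b + (-(v1 * A (1 - x * b) + x * (A' (1 - x * b) * (d * b * (1 - x * b))))
      + b * (G (1 - x * b) * (lam * dslope exp 0 (lam * b)) - 1)) = G (1 - x * b) * exp (lam * b) := by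
    have e1 := hAG (1 - x * b)
    have e2 := kE (lam * b)
    simp only [hv1]
    linear_combination e1 + G (1 - x * b) * e2
  rw [h6]
  exact mul_ne_zero (hG0 _) (exp_ne_zero _)

/-- dividing an entire function by its zeros -/
theorem divide_zeros (S : Finset ℂ) (h : ℂ → ℂ) (hd : Differentiable ℂ h)
    (hz : ∀ a ∈ S, h a = 0) :
    ∃ q : ℂ → ℂ, Differentiable ℂ q ∧ ∀ z, h z = (∏ a ∈ S, (z - a)) * q z := by
  classical
  induction S using Finset.induction_on with
  | empty => exact ⟨h, hd, fun z => by simp⟩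
  | insert a S ha ih =>
    obtain ⟨q, hq, hqe⟩ := ih (fun b hb => hz b (Finset.mem_insert_of_mem hb))
    have hqa : q a = 0 := by
      have h1 := hqe a
      rw [hz a (Finset.mem_insert_self a S)] at h1
      refine (mul_eq_zero.1 h1.symm).resolve_left ?_
      refine Finset.prod_ne_zero_iff.2 ?_
      intro b hb
      exact sub_ne_zero.2 (fun h => ha (h ▸ hb))
    refine ⟨dslope q a, entire_dslope hq a, fun z => ?_⟩
    have := sub_smul_dslope q a z
    rw [smul_eq_mul, hqa, sub_zero] at this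
    rw [hqe, Finset.prod_insert ha, ← this]
    ring

/-- The universal function for `P(x) + f`. -/
theorem exists_interp (d : ℂ) (hd : d ≠ 0) (p : Polynomial ℂ) (hp : p ≠ 0)
    (hs : ∀ a, p.eval a = 0 → p.derivative.eval a ≠ 0) :
    ∃ V : ℂ → ℂ, Differentiable ℂ V ∧
      ∀ z, p.derivative.eval z + d * p.eval z * deriv V z ≠ 0 := by
  classical
  set S : Finset ℂ := p.roots.toFinset with hS
  have hmem : ∀ a, a ∈ S ↔ p.eval a = 0 := by
    intro a
    rw [hS, Multiset.mem_toFinset, Polynomial.mem_roots hp, Polynomial.IsRoot]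
  -- p is a constant times the product of its simple linear factors
  have hfac : ∃ c : ℂ, c ≠ 0 ∧ ∀ z, p.eval z = c * ∏ a ∈ S, (z - a) := by
    have hsplit := IsAlgClosed.splits p
    have hnd : p.roots.Nodup := by
      rw [Multiset.nodup_iff_count_le_one]
      intro a
      rw [Polynomial.count_roots]
      by_contra hgt
      push Not at hgt
      have h2 := (Polynomial.one_lt_rootMultiplicity_iff_isRoot hp).1 hgt
      exact hs a h2.1 h2.2
    refine ⟨p.leadingCoeff, Polynomial.leadingCoeff_ne_zero.2 hp, fun z => ?_⟩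
    have h1 := hsplit.eq_prod_roots
    conv_lhs => rw [h1]
    rw [Polynomial.eval_mul, Polynomial.eval_C, Polynomial.eval_multiset_prod]
    congr 1
    rw [Multiset.map_map]
    have h3 : S.val = p.roots := by
      rw [hS, Multiset.toFinset_val, Multiset.dedup_eq_self.2 hnd]
    rw [← h3]
    show _ = (S.val.map (fun a => z - a)).prod
    congr 1
    refine Multiset.map_congr rfl fun a _ => ?_
    simp
  obtain ⟨c, hc, hfac⟩ := hfac
  set χ : Polynomial ℂ := Lagrange.interpolate S id (fun a => Complex.log (p.derivative.eval a)) with hχ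
  have hχe : ∀ a ∈ S, χ.eval a = Complex.log (p.derivative.eval a) := by
    intro a ha
    have := Lagrange.eval_interpolate_at_node (s := S) (v := id)
      (fun a => Complex.log (p.derivative.eval a)) (Function.injective_id.injOn) ha
    exact this
  obtain ⟨q, hq, hqe⟩ := divide_zeros S (fun z => exp (χ.eval z) - p.derivative.eval z)
    (by
      have h1 : Differentiable ℂ (fun z => χ.eval z) := χ.differentiable
      have h2 : Differentiable ℂ (fun z => p.derivative.eval z) := p.derivative.differentiable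
      fun_prop) (by
      intro a ha
      rw [hχe a ha, Complex.exp_log (hs a ((hmem a).1 ha)), sub_self])
  obtain ⟨V, hV⟩ := (hq.const_mul ((d * c)⁻¹ : ℂ)).isExactOn_univ
  have hV' : ∀ z, HasDerivAt V ((d * c)⁻¹ * q z) z := fun z => hV z (mem_univ z)
  refine ⟨V, fun z => (hV' z).differentiableAt, fun z => ?_⟩
  rw [(hV' z).deriv]
  have h1 := hqe z
  have h2 : p.derivative.eval z + d * p.eval z * ((d * c)⁻¹ * q z) = exp (χ.eval z) := by
    rw [hfac z]
    have h3 : (d * c) * (d * c)⁻¹ = 1 := mul_inv_cancel₀ (mul_ne_zero hd hc)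
    linear_combination -h1 + (∏ a ∈ S, (z - a)) * q z * h3
  rw [h2]
  exact exp_ne_zero _

end Pool.Agent.Helper342.Imm
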