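import Mathlib
import Pool.Agent.Helper342.Imm.General
import Pool.Agent.Helper342.Imm.CubicGrad

set_option linter.all false
set_option autoImplicit false
set_option maxHeartbeats 400000
set_option synthInstance.maxHeartbeats 400000

open Complex Set MvPolynomial

namespace Pool.Agent.Helper342.Imm

open CubicGrad

/-- weighted Euler vector in the last `n` coordinates -/
def wE {n : ℕ} (wt : Fin n → ℕ) (w : Fin (n + 1) → ℂ) : Fin (n + 1) → ℂ :=
  Fin.cons 0 (fun i => (wt i : ℂ) * w i.succ)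

/-- The weighted radial construction. -/
theorem wradial {n : ℕ} (G : (Fin (n + 1) → ℂ) → ℂ) (wt : Fin n → ℕ)
    (u : (Fin (n + 1) → ℂ) → ℂ) (hu : Differentiable ℂ u)
    (hJ : ∀ w, G w = 1 →
      fderiv ℂ G w (Pi.single 0 1) * (1 + fderiv ℂ u w (wE wt w))
        - fderiv ℂ G w (wE wt w) * fderiv ℂ u w (Pi.single 0 1) ≠ 0) : HasImm n G := by
  have hd : ∀ w, HasFDerivAt (fun w : Fin (n + 1) → ℂ => fun i : Fin n =>
      exp ((wt i : ℂ) * u w) * w i.succ)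
      (ContinuousLinearMap.pi (fun i : Fin n =>
        exp ((wt i : ℂ) * u w) • (ContinuousLinearMap.proj i.succ : (Fin (n + 1) → ℂ) →L[ℂ] ℂ)
        + w i.succ • (exp ((wt i : ℂ) * u w) • ((wt i : ℂ) • fderiv ℂ u w)))) w := by
    intro w
    rw [hasFDerivAt_pi]
    intro i
    have h1 : HasFDerivAt (fun w => exp ((wt i : ℂ) * u w))
        (exp ((wt i : ℂ) * u w) • ((wt i : ℂ) • fderiv ℂ u w)) w :=
      ((hu w).hasFDerivAt.const_mul (wt i : ℂ)).cexp
    have h2 : HasFDerivAt (fun w : Fin (n + 1) → ℂ => w i.succ)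
        (ContinuousLinearMap.proj i.succ : (Fin (n + 1) → ℂ) →L[ℂ] ℂ) w :=
      (ContinuousLinearMap.proj i.succ : (Fin (n + 1) → ℂ) →L[ℂ] ℂ).hasFDerivAt
    exact h1.mul h2
  refine ⟨fun w => fun i : Fin n => exp ((wt i : ℂ) * u w) * w i.succ,
    fun w => (hd w).differentiableAt, fun w hw v hgv hΦ => ?_⟩
  rw [(hd w).fderiv] at hΦ
  set a := fderiv ℂ u w v with ha
  have hcomp : ∀ i : Fin n, v i.succ = -(a * ((wt i : ℂ) * w i.succ)) := by
    intro i
    have h1 := congrFun hΦ i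
    simp only [ContinuousLinearMap.pi_apply, _root_.add_apply, _root_.smul_apply,
      ContinuousLinearMap.proj_apply, smul_eq_mul, Pi.zero_apply] at h1
    have h2 : exp ((wt i : ℂ) * u w) * (v i.succ + a * ((wt i : ℂ) * w i.succ)) = 0 := by
      rw [← h1, ha]
      ring
    have h3 := (mul_eq_zero.1 h2).resolve_left (exp_ne_zero _)
    linear_combination h3
  have hv : v = (v 0) • (Pi.single 0 1 : Fin (n + 1) → ℂ) - a • wE wt w := by
    funext i
    refine Fin.cases ?_ (fun i => ?_) i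
    · simp [wE]
    · rw [hcomp i]
      simp [wE]
  have e1 : v 0 * fderiv ℂ G w (Pi.single 0 1) - a * fderiv ℂ G w (wE wt w) = 0 := by
    have := congrArg (fderiv ℂ G w) hv
    rw [hgv, map_sub, map_smul, map_smul, smul_eq_mul, smul_eq_mul] at this
    exact this.symm
  have e2 : v 0 * fderiv ℂ u w (Pi.single 0 1) - a * fderiv ℂ u w (wE wt w) = a := by
    have := congrArg (fderiv ℂ u w) hv
    rw [map_sub, map_smul, map_smul, smul_eq_mul, smul_eq_mul] at this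
    exact this.symm
  have hJw := hJ w hw
  set gx := fderiv ℂ G w (Pi.single 0 1)
  set gN := fderiv ℂ G w (wE wt w)
  set ux := fderiv ℂ u w (Pi.single 0 1)
  set uN := fderiv ℂ u w (wE wt w)
  have e3 : v 0 * (gx * (1 + uN) - gN * ux) = 0 := by
    linear_combination (1 + uN) * e1 - gN * e2
  have e4 : a * (gx * (1 + uN) - gN * ux) = 0 := by
    linear_combination ux * e1 - gx * e2
  have e5 := (mul_eq_zero.1 e3).resolve_right hJw
  have e6 := (mul_eq_zero.1 e4).resolve_right hJw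
  rw [hv, e5, e6, zero_smul, zero_smul, sub_zero]

/-- projection along a direction in which the function is never critical -/
theorem imm_proj {E : Type*} [NormedAddCommGroup E] [NormedSpace ℂ E] [FiniteDimensional ℂ E]
    {n : ℕ} (hE : Module.finrank ℂ E = n + 1) (G : E → ℂ) (p : E) (hp : p ≠ 0)
    (h : ∀ z, G z = 1 → fderiv ℂ G z p ≠ 0) : HasImm n G := by
  obtain ⟨π, hπ⟩ := exists_pi hE p hp
  refine ⟨π, π.differentiable, fun z hz v hgv hΦ => ?_⟩
  rw [π.fderiv] at hΦ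
  obtain ⟨c, hc⟩ := hπ v hΦ
  rw [hc, map_smul, smul_eq_mul] at hgv
  have := (mul_eq_zero.1 hgv).resolve_right (h z hz)
  rw [hc, this, zero_smul]

noncomputable def tailL (n : ℕ) : (Fin (n + 1) → ℂ) →L[ℂ] (Fin n → ℂ) :=
  ContinuousLinearMap.pi (fun i => (ContinuousLinearMap.proj i.succ : (Fin (n + 1) → ℂ) →L[ℂ] ℂ))

theorem tailL_apply (n : ℕ) (w : Fin (n + 1) → ℂ) : tailL n w = fun i => w i.succ := rfl

/-- the differential of `w ↦ f(w₁, …, wₙ)` -/
noncomputable def dT {n : ℕ} (f : MvPolynomial (Fin n) ℂ) (w : Fin (n + 1) → ℂ) :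
    (Fin (n + 1) → ℂ) →L[ℂ] ℂ :=
  (lin fun j => eval (fun i => w i.succ) (pderiv j f)).comp (tailL n)

theorem dT_apply {n : ℕ} (f : MvPolynomial (Fin n) ℂ) (w v : Fin (n + 1) → ℂ) :
    dT f w v = ∑ j, eval (fun i => w i.succ) (pderiv j f) * v j.succ := by
  rw [dT, ContinuousLinearMap.comp_apply, tailL_apply, lin_apply]

theorem hasFDerivAt_tail {n : ℕ} (f : MvPolynomial (Fin n) ℂ) (w : Fin (n + 1) → ℂ) :
    HasFDerivAt (fun w : Fin (n + 1) → ℂ => eval (fun i => w i.succ) f) (dT f w) w := by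
  have h := (hasFDerivAt_eval f (tailL n w)).comp w (tailL n).hasFDerivAt
  exact h

theorem dT_single {n : ℕ} (f : MvPolynomial (Fin n) ℂ) (w : Fin (n + 1) → ℂ) :
    dT f w (Pi.single 0 1) = 0 := by
  rw [dT_apply]
  refine Finset.sum_eq_zero fun i _ => ?_
  rw [Pi.single_eq_of_ne (Fin.succ_ne_zero i), mul_zero]

theorem dT_wE {n : ℕ} {f : MvPolynomial (Fin n) ℂ} {wt : Fin n → ℕ} {d : ℕ}
    (hf : IsWeightedHomogeneous wt f d) (w : Fin (n + 1) → ℂ) :
    dT f w (wE wt w) = d * eval (fun i => w i.succ) f := by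
  rw [dT_apply]
  have h := congrArg (eval (fun i => w i.succ)) hf.sum_weight_X_mul_pderiv
  simp only [map_sum, map_nsmul, map_mul, eval_X, nsmul_eq_mul, map_natCast] at h
  rw [← h]
  refine Finset.sum_congr rfl fun i _ => ?_
  have h2 : wE wt w i.succ = (wt i : ℂ) * w i.succ := rfl
  rw [h2]
  ring

/-- abstract version of `x g(y) + f(y)` -/
theorem imm_monoid_abs {n : ℕ} (wt : Fin n → ℕ) (e' d' : ℕ) (b c : (Fin (n + 1) → ℂ) → ℂ)
    (Db Dc : (Fin (n + 1) → ℂ) → ((Fin (n + 1) → ℂ) →L[ℂ] ℂ))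
    (hb : ∀ w, HasFDerivAt b (Db w) w) (hc : ∀ w, HasFDerivAt c (Dc w) w)
    (b0 : ∀ w, Db w (Pi.single 0 1) = 0) (c0 : ∀ w, Dc w (Pi.single 0 1) = 0)
    (bN : ∀ w, Db w (wE wt w) = ((e' + 1 : ℕ) : ℂ) * b w)
    (cN : ∀ w, Dc w (wE wt w) = ((d' + 1 : ℕ) : ℂ) * c w) :
    HasImm n (fun w : Fin (n + 1) → ℂ => w 0 * b w + c w) := by
  obtain ⟨U, hU, hUJ⟩ := exists_univ d' e'
  generalize ((d' + 1 : ℕ) : ℂ) = d at *
  generalize ((e' + 1 : ℕ) : ℂ) = e at *
  have h0 : ∀ w : Fin (n + 1) → ℂ, HasFDerivAt (fun w : Fin (n + 1) → ℂ => w 0)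
      (ContinuousLinearMap.proj 0 : (Fin (n + 1) → ℂ) →L[ℂ] ℂ) w := fun w =>
    (ContinuousLinearMap.proj 0 : (Fin (n + 1) → ℂ) →L[ℂ] ℂ).hasFDerivAt
  have hGd : ∀ w, HasFDerivAt (fun w : Fin (n + 1) → ℂ => w 0 * b w + c w)
      (w 0 • Db w + b w • (ContinuousLinearMap.proj 0 : (Fin (n + 1) → ℂ) →L[ℂ] ℂ) + Dc w) w :=
    fun w => ((h0 w).mul (hb w)).add (hc w)
  have hud : ∀ w, HasFDerivAt (fun w : Fin (n + 1) → ℂ => U (w 0, b w))
      ((fderiv ℂ U (w 0, b w)).comp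
        ((ContinuousLinearMap.proj 0 : (Fin (n + 1) → ℂ) →L[ℂ] ℂ).prod (Db w))) w := fun w =>
    ((hU _).hasFDerivAt).comp w ((h0 w).prodMk (hb w))
  refine wradial _ wt (fun w => U (w 0, b w)) (fun w => (hud w).differentiableAt) fun w hw => ?_
  rw [(hGd w).fderiv, (hud w).fderiv]
  have hw0 : wE wt w 0 = 0 := rfl
  have hs0 : (Pi.single 0 1 : Fin (n + 1) → ℂ) 0 = 1 := by simp
  have k1 : (w 0 • Db w + b w • (ContinuousLinearMap.proj 0 : (Fin (n + 1) → ℂ) →L[ℂ] ℂ) + Dc w)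
      (Pi.single 0 1) = b w := by
    rw [_root_.add_apply, _root_.add_apply, _root_.smul_apply, _root_.smul_apply, b0, c0,
      ContinuousLinearMap.proj_apply, hs0]
    simp
  have k2 : (w 0 • Db w + b w • (ContinuousLinearMap.proj 0 : (Fin (n + 1) → ℂ) →L[ℂ] ℂ) + Dc w)
      (wE wt w) = w 0 * (e * b w) + d * c w := by
    rw [_root_.add_apply, _root_.add_apply, _root_.smul_apply, _root_.smul_apply, bN, cN,
      ContinuousLinearMap.proj_apply, hw0, smul_zero, add_zero, smul_eq_mul]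
  have k3 : ((fderiv ℂ U (w 0, b w)).comp
        ((ContinuousLinearMap.proj 0 : (Fin (n + 1) → ℂ) →L[ℂ] ℂ).prod (Db w))) (Pi.single 0 1)
      = fderiv ℂ U (w 0, b w) (1, 0) := by
    rw [ContinuousLinearMap.comp_apply, ContinuousLinearMap.prod_apply, b0,
      ContinuousLinearMap.proj_apply, hs0]
  have k4 : ((fderiv ℂ U (w 0, b w)).comp
        ((ContinuousLinearMap.proj 0 : (Fin (n + 1) → ℂ) →L[ℂ] ℂ).prod (Db w))) (wE wt w)
      = fderiv ℂ U (w 0, b w) (0, e * b w) := by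
    rw [ContinuousLinearMap.comp_apply, ContinuousLinearMap.prod_apply, bN,
      ContinuousLinearMap.proj_apply, hw0]
  rw [k1, k2, k3, k4]
  have hJ := hUJ (w 0) (b w)
  have hw' : w 0 * b w + c w = 1 := hw
  generalize w 0 = x at *
  generalize b w = β at *
  generalize c w = γ at *
  have e3 : (((d - e) * (β * x) - d, e * β ^ 2) : ℂ × ℂ)
      = β • ((0, e * β) : ℂ × ℂ) + ((d - e) * (β * x) - d) • ((1, 0) : ℂ × ℂ) := by
    ext
    · simp
    · simp; ring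
  rw [e3, map_add, map_smul, map_smul, smul_eq_mul, smul_eq_mul] at hJ
  intro h5
  apply hJ
  linear_combination h5 + d * fderiv ℂ U (x, β) (1, 0) * hw'

/-- `w ↦ f(w₁, …, wₙ)` -/
noncomputable def bT {n : ℕ} (f : MvPolynomial (Fin n) ℂ) (w : Fin (n + 1) → ℂ) : ℂ :=
  eval (fun i => w i.succ) f

theorem bT_hasFDerivAt {n : ℕ} (f : MvPolynomial (Fin n) ℂ) (w : Fin (n + 1) → ℂ) :
    HasFDerivAt (bT f) (dT f w) w := hasFDerivAt_tail f w

theorem bT_wE {n : ℕ} {f : MvPolynomial (Fin n) ℂ} {wt : Fin n → ℕ} {d : ℕ}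
    (hf : IsWeightedHomogeneous wt f d) (w : Fin (n + 1) → ℂ) :
    dT f w (wE wt w) = (d : ℂ) * bT f w := dT_wE hf w

/-- `x g(y) + f(y)` -/
theorem imm_monoid {n : ℕ} (g f : MvPolynomial (Fin n) ℂ) (wt : Fin n → ℕ) (e' d' : ℕ)
    (hg : IsWeightedHomogeneous wt g (e' + 1))
    (hf : IsWeightedHomogeneous wt f (d' + 1)) :
    HasImm n (fun w : Fin (n + 1) → ℂ => w 0 * bT g w + bT f w) := by
  have h1 : ∀ w, dT g w (wE wt w) = ((e' + 1 : ℕ) : ℂ) * bT g w := fun w => bT_wE hg w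
  have h2 : ∀ w, dT f w (wE wt w) = ((d' + 1 : ℕ) : ℂ) * bT f w := fun w => bT_wE hf w
  exact imm_monoid_abs wt e' d' (bT g) (bT f) (dT g) (dT f) (bT_hasFDerivAt g) (bT_hasFDerivAt f)
    (dT_single g) (dT_single f) h1 h2

/-- abstract version of `P(x) + f(y)` -/
theorem imm_sum_abs {n : ℕ} (wt : Fin n → ℕ) (d : ℂ) (hd : d ≠ 0) (P : Polynomial ℂ)
    (c : (Fin (n + 1) → ℂ) → ℂ)
    (Dc : (Fin (n + 1) → ℂ) → ((Fin (n + 1) → ℂ) →L[ℂ] ℂ))
    (hc : ∀ w, HasFDerivAt c (Dc w) w)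
    (c0 : ∀ w, Dc w (Pi.single 0 1) = 0)
    (cN : ∀ w, Dc w (wE wt w) = d * c w)
    (hP : (1 - P) ≠ 0) (hs : ∀ a, (1 - P).eval a = 0 → (1 - P).derivative.eval a ≠ 0) :
    HasImm n (fun w : Fin (n + 1) → ℂ => P.eval (w 0) + c w) := by
  obtain ⟨V, hV, hVJ⟩ := exists_interp d hd (1 - P) hP hs
  have h0 : ∀ w : Fin (n + 1) → ℂ, HasFDerivAt (fun w : Fin (n + 1) → ℂ => w 0)
      (ContinuousLinearMap.proj 0 : (Fin (n + 1) → ℂ) →L[ℂ] ℂ) w := fun w =>
    (ContinuousLinearMap.proj 0 : (Fin (n + 1) → ℂ) →L[ℂ] ℂ).hasFDerivAt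
  have hGd : ∀ w, HasFDerivAt (fun w : Fin (n + 1) → ℂ => P.eval (w 0) + c w)
      (P.derivative.eval (w 0) • (ContinuousLinearMap.proj 0 : (Fin (n + 1) → ℂ) →L[ℂ] ℂ)
        + Dc w) w :=
    fun w => by
      have h1 : HasFDerivAt (fun w : Fin (n + 1) → ℂ => P.eval (w 0))
          (P.derivative.eval (w 0) • (ContinuousLinearMap.proj 0 : (Fin (n + 1) → ℂ) →L[ℂ] ℂ)) w :=
        HasDerivAt.comp_hasFDerivAt (h₂ := fun x => P.eval x) w (P.hasDerivAt (w 0)) (h0 w)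
      exact h1.add (hc w)
  have hud : ∀ w, HasFDerivAt (fun w : Fin (n + 1) → ℂ => V (w 0))
      (deriv V (w 0) • (ContinuousLinearMap.proj 0 : (Fin (n + 1) → ℂ) →L[ℂ] ℂ)) w := fun w =>
    ((hV (w 0)).hasDerivAt).comp_hasFDerivAt w (h0 w)
  refine wradial _ wt (fun w => V (w 0)) (fun w => (hud w).differentiableAt) fun w hw => ?_
  rw [(hGd w).fderiv, (hud w).fderiv]
  have hw0 : wE wt w 0 = 0 := rfl
  have hs0 : (Pi.single 0 1 : Fin (n + 1) → ℂ) 0 = 1 := by simp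
  simp only [_root_.add_apply, _root_.smul_apply, ContinuousLinearMap.proj_apply, hw0, hs0,
    smul_eq_mul, mul_zero, mul_one, add_zero, zero_add, c0, cN]
  have hJ := hVJ (w 0)
  have hw' : P.eval (w 0) + c w = 1 := hw
  simp only [Polynomial.eval_sub, Polynomial.eval_one, Polynomial.derivative_sub,
    Polynomial.derivative_one, zero_sub, Polynomial.eval_neg] at hJ
  intro h5
  apply hJ
  linear_combination -h5 - d * deriv V (w 0) * hw'

theorem eval_zero_of_wh {n : ℕ} {f : MvPolynomial (Fin n) ℂ} {wt : Fin n → ℕ} {d : ℕ}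
    (hf : IsWeightedHomogeneous wt f d) (hd : 0 < d) : eval 0 f = 0 := by
  have h1 : eval 0 f = coeff 0 f := by
    rw [eval_zero, constantCoeff_eq]
  rw [h1]
  by_contra h
  have := hf h
  simp at this
  omega

end Pool.Agent.Helper342.Imm
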