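import Mathlib
import Pool.Agent.Helper342.Imm.Weighted
import Pool.Agent.Helper342.Imm.Small

set_option linter.all false
set_option autoImplicit false
set_option maxHeartbeats 400000
set_option synthInstance.maxHeartbeats 400000

open Complex Set MvPolynomial

namespace Pool.Agent.Helper342.Imm

open CubicGrad

theorem const_of_wh_zero {n : ℕ} {wt : Fin n → ℕ} (hwt : ∀ i, 0 < wt i)
    {q : MvPolynomial (Fin n) ℂ} (hq : IsWeightedHomogeneous wt q 0) : q = C (coeff 0 q) := by
  classical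
  ext m
  rw [coeff_C]
  split_ifs with h
  · rw [← h]
  · by_contra hm
    apply h
    have h1 := hq hm
    rw [Finsupp.weight_apply, Finsupp.sum, Finset.sum_eq_zero_iff] at h1
    symm
    ext i
    by_contra hi
    have h2 := h1 i (Finsupp.mem_support_iff.2 hi)
    rw [smul_eq_mul, mul_eq_zero] at h2
    rcases h2 with h2 | h2
    · exact hi h2
    · exact absurd h2 (hwt i).ne'

theorem deg_of_linear_term {n : ℕ} {wt : Fin n → ℕ} {d : ℕ} {f : MvPolynomial (Fin n) ℂ}
    (hf : IsWeightedHomogeneous wt f d) (j : Fin n) (h : eval 0 (pderiv j f) ≠ 0) : wt j = d := by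
  classical
  have h1 : f = ∑ m ∈ f.support, monomial m (coeff m f) := (support_sum_monomial_coeff f).symm
  have h2 : eval 0 (pderiv j f)
      = ∑ m ∈ f.support, eval 0 (monomial (m - Finsupp.single j 1) (coeff m f * m j)) := by
    conv_lhs => rw [h1]
    rw [map_sum, map_sum]
    refine Finset.sum_congr rfl fun m _ => ?_
    rw [pderiv_monomial]
  rw [h2] at h
  obtain ⟨m, hm, hne⟩ := Finset.exists_ne_zero_of_sum_ne_zero h
  rw [eval_zero, constantCoeff_monomial] at hne
  have h3 : m - Finsupp.single j 1 = 0 := by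
    by_contra h4
    rw [if_neg h4] at hne
    exact hne rfl
  rw [if_pos h3] at hne
  have h4 : m j ≠ 0 := by
    intro h5
    rw [h5] at hne
    simp at hne
  have h5 : m = Finsupp.single j 1 := by
    have h6 : m - Finsupp.single j 1 + Finsupp.single j 1 = m :=
      tsub_add_cancel_of_le (Finsupp.single_le_iff.2 (Nat.one_le_iff_ne_zero.2 h4))
    rw [h3, zero_add] at h6
    exact h6.symm
  have h6 := hf (mem_support_iff.1 hm)
  rw [h5] at h6
  rw [← h6]
  simp [Finsupp.weight_apply]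

theorem dT_single_succ {n : ℕ} (f : MvPolynomial (Fin n) ℂ) (w : Fin (n + 1) → ℂ) (j : Fin n) :
    dT f w (Pi.single j.succ 1) = eval (fun i => w i.succ) (pderiv j f) := by
  classical
  rw [dT_apply, Finset.sum_eq_single j]
  · rw [Pi.single_eq_same, mul_one]
  · intro b _ hb
    rw [Pi.single_eq_of_ne (fun h => hb (Fin.succ_injective n h)), mul_zero]
  · intro h
    exact absurd (Finset.mem_univ j) h

theorem sum_hasFDerivAt {n : ℕ} (P : Polynomial ℂ) (f : MvPolynomial (Fin n) ℂ)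
    (w : Fin (n + 1) → ℂ) :
    HasFDerivAt (fun w : Fin (n + 1) → ℂ => P.eval (w 0) + bT f w)
      (P.derivative.eval (w 0) • (ContinuousLinearMap.proj 0 : (Fin (n + 1) → ℂ) →L[ℂ] ℂ)
        + dT f w) w := by
  have h0 : HasFDerivAt (fun w : Fin (n + 1) → ℂ => w 0)
      (ContinuousLinearMap.proj 0 : (Fin (n + 1) → ℂ) →L[ℂ] ℂ) w :=
    (ContinuousLinearMap.proj 0 : (Fin (n + 1) → ℂ) →L[ℂ] ℂ).hasFDerivAt
  have h1 : HasFDerivAt (fun w : Fin (n + 1) → ℂ => P.eval (w 0))
      (P.derivative.eval (w 0) • (ContinuousLinearMap.proj 0 : (Fin (n + 1) → ℂ) →L[ℂ] ℂ)) w :=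
    HasDerivAt.comp_hasFDerivAt (h₂ := fun x => P.eval x) w (P.hasDerivAt (w 0)) h0
  exact h1.add (bT_hasFDerivAt f w)

/-- `P(x) + f(y)` -/
theorem imm_sum {n : ℕ} (P : Polynomial ℂ) (f : MvPolynomial (Fin n) ℂ) (wt : Fin n → ℕ) (d : ℕ)
    (hwt : ∀ i, 0 < wt i) (hd : 0 < d) (hf : IsWeightedHomogeneous wt f d)
    (hsm : ∀ w : Fin (n + 1) → ℂ, P.eval (w 0) + bT f w = 1 →
      fderiv ℂ (fun w : Fin (n + 1) → ℂ => P.eval (w 0) + bT f w) w ≠ 0) :
    HasImm n (fun w : Fin (n + 1) → ℂ => P.eval (w 0) + bT f w) := by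
  classical
  by_cases hlin : ∃ j, eval 0 (pderiv j f) ≠ 0
  · obtain ⟨j, hj⟩ := hlin
    have hdj := deg_of_linear_term hf j hj
    have hq : IsWeightedHomogeneous wt (pderiv j f) 0 :=
      IsWeightedHomogeneous.pderiv hf (by rw [zero_add]; exact hdj)
    have hC := const_of_wh_zero hwt hq
    have hne : (Pi.single j.succ 1 : Fin (n + 1) → ℂ) ≠ 0 := by
      intro h
      have := congrFun h j.succ
      rw [Pi.single_eq_same] at this
      exact one_ne_zero this
    refine imm_proj (by simp) _ (Pi.single j.succ 1) hne fun z _ => ?_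
    rw [(sum_hasFDerivAt P f z).fderiv]
    have e1 : (Pi.single j.succ 1 : Fin (n + 1) → ℂ) 0 = 0 :=
      Pi.single_eq_of_ne (Fin.succ_ne_zero j).symm _
    rw [_root_.add_apply, _root_.smul_apply, ContinuousLinearMap.proj_apply, e1,
      dT_single_succ, smul_zero, zero_add]
    rw [hC] at hj ⊢
    simpa using hj
  · push Not at hlin
    have hf0 : bT f 0 = 0 := eval_zero_of_wh hf hd
    have hpt : ∀ a : ℂ, bT f (Pi.single 0 a) = 0 := by
      intro a
      have : (fun i : Fin n => (Pi.single 0 a : Fin (n + 1) → ℂ) i.succ) = 0 := by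
        funext i
        exact Pi.single_eq_of_ne (Fin.succ_ne_zero i) _
      rw [bT, this]
      exact eval_zero_of_wh hf hd
    have hdpt : ∀ a : ℂ, dT f (Pi.single 0 a) = 0 := by
      intro a
      have h1 : (fun i : Fin n => (Pi.single 0 a : Fin (n + 1) → ℂ) i.succ) = 0 := by
        funext i
        exact Pi.single_eq_of_ne (Fin.succ_ne_zero i) _
      ext v
      rw [dT_apply]
      simp only [h1, hlin, zero_mul, Finset.sum_const_zero]
      rfl
    have hs' : ∀ a, P.eval a = 1 → P.derivative.eval a ≠ 0 := by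
      intro a ha hda
      refine hsm (Pi.single 0 a) ?_ ?_
      · rw [Pi.single_eq_same, ha, hpt, add_zero]
      · rw [(sum_hasFDerivAt P f _).fderiv, Pi.single_eq_same, hda, hdpt, add_zero]
        ext v
        simp
    have hP : (1 - P) ≠ 0 := by
      intro h
      have h1 : P = 1 := (sub_eq_zero.1 h).symm
      exact hs' 0 (by rw [h1]; simp) (by rw [h1]; simp)
    exact imm_sum_abs wt (d : ℂ) (by exact_mod_cast hd.ne') P (bT f) (dT f) (bT_hasFDerivAt f)
      (dT_single f) (fun w => bT_wE hf w) hP (by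
        intro a ha
        have h1 : P.eval a = 1 := by
          rw [Polynomial.eval_sub, Polynomial.eval_one] at ha
          linear_combination -ha
        have h2 := hs' a h1
        simpa using h2)

/-- biholomorphic changes of coordinates -/
theorem HasImm.of_biholo {n m : ℕ} {G G' : (Fin m → ℂ) → ℂ}
    (A B : (Fin m → ℂ) → (Fin m → ℂ)) (hA : Differentiable ℂ A) (hB : Differentiable ℂ B)
    (hBA : ∀ w, B (A w) = w) (hG : ∀ w, G w = G' (A w))
    (hG' : Differentiable ℂ G')
    (h : HasImm n G') : HasImm n G := by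
  obtain ⟨Φ, h1, h2⟩ := h
  have hGe : G = fun w => G' (A w) := funext hG
  refine ⟨fun w => Φ (A w), fun w => ((h1 _).hasFDerivAt.comp w (hA w).hasFDerivAt).differentiableAt,
    fun z hz v hgv hΦ => ?_⟩
  have e1 : HasFDerivAt (fun w => Φ (A w)) ((fderiv ℂ Φ (A z)).comp (fderiv ℂ A z)) z :=
    (h1 _).hasFDerivAt.comp z (hA z).hasFDerivAt
  have e2 : HasFDerivAt G ((fderiv ℂ G' (A z)).comp (fderiv ℂ A z)) z := by
    rw [hGe]
    exact (hG' _).hasFDerivAt.comp z (hA z).hasFDerivAt
  have e3 : HasFDerivAt (fun w => B (A w)) ((fderiv ℂ B (A z)).comp (fderiv ℂ A z)) z :=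
    (hB _).hasFDerivAt.comp z (hA z).hasFDerivAt
  have e4 : HasFDerivAt (fun w => B (A w)) (ContinuousLinearMap.id ℂ (Fin m → ℂ)) z := by
    have : (fun w => B (A w)) = fun w => w := funext hBA
    rw [this]
    exact hasFDerivAt_id z
  have e5 := e3.unique e4
  rw [e1.fderiv] at hΦ
  rw [e2.fderiv] at hgv
  have h3 := h2 (A z) (by rw [← hG]; exact hz) (fderiv ℂ A z v) hgv hΦ
  have h4 := congrArg (fun T : (Fin m → ℂ) →L[ℂ] (Fin m → ℂ) => T v) e5
  simp only [ContinuousLinearMap.comp_apply, ContinuousLinearMap.id_apply] at h4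
  rw [← h4, h3, map_zero]

theorem smooth_of_biholo {m : ℕ} {G G' : (Fin m → ℂ) → ℂ}
    (A B : (Fin m → ℂ) → (Fin m → ℂ)) (hA : Differentiable ℂ A)
    (hAB : ∀ w, A (B w) = w) (hG : ∀ w, G w = G' (A w))
    (hG' : Differentiable ℂ G') (h : ∀ w, G w = 1 → fderiv ℂ G w ≠ 0) (w : Fin m → ℂ)
    (hw : G' w = 1) : fderiv ℂ G' w ≠ 0 := by
  intro h0
  have hGe : G = fun w => G' (A w) := funext hG
  refine h (B w) (by rw [hG, hAB]; exact hw) ?_
  have e2 : HasFDerivAt G ((fderiv ℂ G' (A (B w))).comp (fderiv ℂ A (B w))) (B w) := by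
    rw [hGe]
    exact (hG' _).hasFDerivAt.comp _ (hA _).hasFDerivAt
  rw [e2.fderiv, hAB, h0]
  ext v
  simp

theorem bT_differentiable {n : ℕ} (f : MvPolynomial (Fin n) ℂ) : Differentiable ℂ (bT f) :=
  fun w => (bT_hasFDerivAt f w).differentiableAt

/-- ternary cubic forms -/
theorem imm_ternary (F : MvPolynomial (Fin 3) ℂ) (hF : F.IsHomogeneous 3) :
    HasImm 2 (fun w : Fin 3 → ℂ => eval w F) := by
  have hC : IsCubic (fun w : Fin 3 → ℂ => eval w F) :=
    isCubic_eval (E := Fin 3 → ℂ) F hF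
      (fun i => (ContinuousLinearMap.proj i : (Fin 3 → ℂ) →L[ℂ] ℂ))
  by_cases hs : ∃ p : Fin 3 → ℂ, p ≠ 0 ∧ fderiv ℂ (fun w : Fin 3 → ℂ => eval w F) p = 0
  · obtain ⟨p, hp, h⟩ := hs
    exact imm_sing (by simp) _ hC p hp h
  · push Not at hs
    refine CubicNormal.imm_smooth F hF fun z hz _ => ?_
    by_contra hno
    push Not at hno
    have h1 := CubicGrad.hasFDerivAt_eval F z
    have h2 : CubicGrad.lin (fun i => eval z (pderiv i F)) = 0 := by
      ext v
      simp [CubicGrad.lin_apply, hno]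
    rw [h2] at h1
    exact hs z hz h1.fderiv

end Pool.Agent.Helper342.Imm
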